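import Pool.Agent.KO.Xa.Basic

/-!
# Block Xa (topology of `X`): the statements
-/

set_option autoImplicit false

namespace Pool.Agent.KO

open Set Filter Topology

/-- General facts on the sheaf of a complex space. -/
structure ShfFacts {X : Type} [TopologicalSpace X] (O : Shf X) : Prop where
  congr : ∀ (f f' : X → ℂ) (x : X), f =ᶠ[𝓝 x] f' → O f x → O f' x
  cont : ∀ (f : X → ℂ) (x : X), O f x → ContinuousAt f x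
  opn : ∀ (f : X → ℂ) (x : X), O f x → ∀ᶠ y in 𝓝 x, O f y
  comp : ∀ (n : ℕ) (f : Fin n → X → ℂ) (x : X) (H : (Fin n → ℂ) → ℂ), (∀ i, O (f i) x) →
    AnalyticAt ℂ H (fun i => f i x) → O (fun y => H (fun i => f i y)) x

namespace Flip

variable (F : Flip)

/-- The relation is an equivalence relation; the points of `X`. -/
structure RelFacts : Prop where
  surj : ∀ x : F.Sp, (∃ p : M1, F.pi1 p = x) ∨ ∃ q : F.M2, F.pi2 q = x ∧ q.1 3 = 0 ∧ q.1 4 = 0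
  eq11 : ∀ p p' : M1, F.pi1 p = F.pi1 p' ↔ ∃ l : ℂ, l ≠ 0 ∧ p'.1 = act l p.1
  eq22 : ∀ q q' : F.M2, F.pi2 q = F.pi2 q' ↔ ∃ l : ℂ, l ≠ 0 ∧ q'.1 = act' l q.1
  eq12 : ∀ (p : M1) (q : F.M2), F.pi1 p = F.pi2 q ↔
    (q.1 3 ≠ 0 ∨ q.1 4 ≠ 0) ∧ ∃ l : ℂ, l ≠ 0 ∧ p.1 = act l (F.Φ q.1)
  mem1 : ∀ q : F.M2, (q.1 3 ≠ 0 ∨ q.1 4 ≠ 0) → F.Φ q.1 ∈ Cone ∧ F.Φ q.1 ∉ Gam
  zero : ∀ q ∈ Dom F.ρ, q 3 = 0 → q 4 = 0 → ∀ i, F.Φ q i = 0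
  gam : ∀ p ∈ Cone, p ∈ Gam → (![0, 0, 0, p 0, p 2] : Fin 5 → ℂ) ∈ Dom F.ρ ∧
    F.Φ ![0, 0, 0, p 0, p 2] = p

/-- The projections are continuous and open. -/
structure TopFacts : Prop where
  cont1 : Continuous F.pi1
  cont2 : Continuous F.pi2
  open1 : IsOpenMap F.pi1
  open2 : IsOpenMap F.pi2

/-- The functions near a point are tested at one representative. -/
structure OFacts : Prop where
  o1 : ∀ (f : F.Sp → ℂ) (p : M1), F.O f (F.pi1 p) ↔ ∃ H : (Fin 6 → ℂ) → ℂ, AnalyticAt ℂ H p.1 ∧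
    ∀ᶠ p' in 𝓝 p, f (F.pi1 p') = H p'.1
  o2 : ∀ (f : F.Sp → ℂ) (q : F.M2), F.O f (F.pi2 q) ↔ ∃ H : (Fin 5 → ℂ) → ℂ,
    AnalyticAt ℂ H q.1 ∧ ∀ᶠ q' in 𝓝 q, f (F.pi2 q') = H q'.1

/-- The function on `π₁(M₁)` given by an invariant function `h` of `p`. -/
noncomputable def desc1 (h : (Fin 6 → ℂ) → ℂ) (x : F.Sp) : ℂ :=
  open Classical in if H : ∃ p : M1, F.pi1 p = x then h H.choose.1 else 0

/-- The function on `π₂(M₂)` given by an invariant function `h` of `q`. -/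
noncomputable def desc2 (h : (Fin 5 → ℂ) → ℂ) (x : F.Sp) : ℂ :=
  open Classical in if H : ∃ q : F.M2, F.pi2 q = x then h H.choose.1 else 0

/-- The open set `p i ≠ 0`. -/
def V1 (i : Fin 6) : Set F.Sp := {x | ∃ p : M1, F.pi1 p = x ∧ p.1 i ≠ 0}

/-- The open set `q j ≠ 0`. -/
def V2 (j : Fin 5) : Set F.Sp := {x | ∃ q : F.M2, F.pi2 q = x ∧ q.1 j ≠ 0}

/-- The set `z = 0`. -/
def Z : Set F.Sp := {x | (∀ p : M1, F.pi1 p = x → p.1 0 = 0) ∧ ∀ q : F.M2, F.pi2 q = x → q.1 3 = 0}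

/-- Descending functions. -/
structure DescFacts : Prop where
  v1 : ∀ h : (Fin 6 → ℂ) → ℂ, (∀ l : ℂ, l ≠ 0 → ∀ p, h (act l p) = h p) →
    ∀ p : M1, F.desc1 h (F.pi1 p) = h p.1
  v2 : ∀ h : (Fin 5 → ℂ) → ℂ, (∀ l : ℂ, l ≠ 0 → ∀ q ∈ Dom F.ρ, h (act' l q) = h q) →
    ∀ q : F.M2, F.desc2 h (F.pi2 q) = h q.1
  h1 : ∀ h : (Fin 6 → ℂ) → ℂ, (∀ l : ℂ, l ≠ 0 → ∀ p, h (act l p) = h p) →
    ∀ p : M1, AnalyticAt ℂ h p.1 → F.O (F.desc1 h) (F.pi1 p)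
  h2 : ∀ h : (Fin 5 → ℂ) → ℂ, (∀ l : ℂ, l ≠ 0 → ∀ q ∈ Dom F.ρ, h (act' l q) = h q) →
    ∀ q : F.M2, AnalyticAt ℂ h q.1 → F.O (F.desc2 h) (F.pi2 q)
  open1 : ∀ i, IsOpen (F.V1 i)
  open2 : ∀ j, IsOpen (F.V2 j)
  mem1 : ∀ (i : Fin 6) (p : M1), F.pi1 p ∈ F.V1 i ↔ p.1 i ≠ 0
  mem2 : ∀ (j : Fin 5) (q : F.M2), F.pi2 q ∈ F.V2 j ↔ q.1 j ≠ 0
  cover : ∀ x : F.Sp, (∃ i : Fin 6, i ≠ 5 ∧ x ∈ F.V1 i) ∨
    ((∃ j : Fin 5, j.1 < 3 ∧ x ∈ F.V2 j) ∧ ∃ q : F.M2, F.pi2 q = x ∧ q.1 3 = 0 ∧ q.1 4 = 0)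
  z1 : ∀ p : M1, F.pi1 p ∈ F.Z ↔ p.1 0 = 0
  z2 : ∀ q : F.M2, F.pi2 q ∈ F.Z ↔ q.1 3 = 0

/-- Density: `π₁(M₁)`, `z ≠ 0` and `g ≠ s` are dense. -/
structure DenseFacts : Prop where
  d1 : Dense (range F.pi1)
  dz : Dense (F.Zᶜ)
  dg : ∀ s : ℂ, Dense {x : F.Sp | x ∉ F.Z ∧ F.g x ≠ s}

/-- All the facts of block Xa. -/
structure XaFacts : Prop where
  rel : F.RelFacts
  top : F.TopFacts
  ofacts : F.OFacts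
  shf : ShfFacts F.O
  desc : F.DescFacts
  dens : F.DenseFacts
  t2 : T2Space F.Sp
  second : SecondCountableTopology F.Sp
  disc : ∀ x, ‖F.g x‖ < 1
  hol : ∀ x, F.O F.g x
  proper : ∀ r < 1, IsCompact {x | ‖F.g x‖ ≤ r}
  flat : IsFlat F.O F.g

end Flip

end Pool.Agent.KO
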