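import Pool.Agent.KO.X.Defs

/-!
# Actions: basic facts (block Xa)
-/

set_option autoImplicit false

namespace Pool.Agent.KO

open Set Filter Topology

/-- The weighted size of a point of the cone. -/
noncomputable def nP (p : Fin 6 → ℂ) : ℝ :=
  max ‖p 0‖ (max (‖p 1‖ ^ (1 / 5 : ℝ)) (max (‖p 2‖ ^ (1 / 6 : ℝ))
    (max (‖p 3‖ ^ (1 / 22 : ℝ)) (‖p 4‖ ^ (1 / 33 : ℝ)))))

theorem act_zero' (l : ℂ) (p : Fin 6 → ℂ) : act l p 0 = l * p 0 := by simp [act, wgt]
theorem act_one' (l : ℂ) (p : Fin 6 → ℂ) : act l p 1 = l ^ 5 * p 1 := by simp [act, wgt]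
theorem act_two' (l : ℂ) (p : Fin 6 → ℂ) : act l p 2 = l ^ 6 * p 2 := rfl
theorem act_three' (l : ℂ) (p : Fin 6 → ℂ) : act l p 3 = l ^ 22 * p 3 := rfl
theorem act_four' (l : ℂ) (p : Fin 6 → ℂ) : act l p 4 = l ^ 33 * p 4 := rfl
theorem act_five' (l : ℂ) (p : Fin 6 → ℂ) : act l p 5 = p 5 := by simp [act, wgt]

theorem act'_zero' (l : ℂ) (q : Fin 5 → ℂ) : act' l q 0 = l⁻¹ * q 0 := by simp [act', wgt']
theorem act'_one' (l : ℂ) (q : Fin 5 → ℂ) : act' l q 1 = (l ^ 2)⁻¹ * q 1 := rfl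
theorem act'_two' (l : ℂ) (q : Fin 5 → ℂ) : act' l q 2 = (l ^ 3)⁻¹ * q 2 := rfl
theorem act'_three' (l : ℂ) (q : Fin 5 → ℂ) : act' l q 3 = l * q 3 := by simp [act', wgt']
theorem act'_four' (l : ℂ) (q : Fin 5 → ℂ) : act' l q 4 = l ^ 6 * q 4 := rfl

theorem act_act (l m : ℂ) (p : Fin 6 → ℂ) : act l (act m p) = act (l * m) p := by
  funext i
  simp only [act, mul_pow]
  ring

theorem act_one (p : Fin 6 → ℂ) : act 1 p = p := by
  funext i
  simp [act]

theorem act'_act' (l m : ℂ) (q : Fin 5 → ℂ) : act' l (act' m q) = act' (l * m) q := by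
  funext i
  simp only [act', mul_zpow]
  ring

theorem act'_one (q : Fin 5 → ℂ) : act' 1 q = q := by
  funext i
  simp [act']

theorem act_inv_act {l : ℂ} (hl : l ≠ 0) (p : Fin 6 → ℂ) : act l⁻¹ (act l p) = p := by
  rw [act_act, inv_mul_cancel₀ hl, act_one]

theorem act_act_inv {l : ℂ} (hl : l ≠ 0) (p : Fin 6 → ℂ) : act l (act l⁻¹ p) = p := by
  rw [act_act, mul_inv_cancel₀ hl, act_one]

theorem act'_inv_act' {l : ℂ} (hl : l ≠ 0) (q : Fin 5 → ℂ) : act' l⁻¹ (act' l q) = q := by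
  rw [act'_act', inv_mul_cancel₀ hl, act'_one]

theorem act'_act'_inv {l : ℂ} (hl : l ≠ 0) (q : Fin 5 → ℂ) : act' l (act' l⁻¹ q) = q := by
  rw [act'_act', mul_inv_cancel₀ hl, act'_one]

theorem G_act (l : ℂ) (p : Fin 6 → ℂ) : G (act l p) = l ^ 66 * G p := by
  unfold G
  rw [act_zero', act_one', act_two', act_three', act_four', act_five']
  ring

theorem act_apply_ne {l : ℂ} (hl : l ≠ 0) (p : Fin 6 → ℂ) (i : Fin 6) :
    act l p i ≠ 0 ↔ p i ≠ 0 := by
  simp only [act, ne_eq, mul_eq_zero, pow_eq_zero_iff', hl, false_and, false_or]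

theorem act'_apply_ne {l : ℂ} (hl : l ≠ 0) (q : Fin 5 → ℂ) (i : Fin 5) :
    act' l q i ≠ 0 ↔ q i ≠ 0 := by
  simp only [act', ne_eq, mul_eq_zero, zpow_ne_zero _ hl, false_or]

theorem act_mem_Cone {l : ℂ} (hl : l ≠ 0) {p : Fin 6 → ℂ} : act l p ∈ Cone ↔ p ∈ Cone := by
  have key : ∀ (m : ℂ) (p : Fin 6 → ℂ), m ≠ 0 → p ∈ Cone → act m p ∈ Cone := by
    rintro m p hm ⟨h1, ⟨i, hi, hp⟩, h3⟩
    refine ⟨by rw [G_act, h1, mul_zero], ⟨i, hi, (act_apply_ne hm p i).2 hp⟩, ?_⟩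
    rw [act_five']
    exact h3
  refine ⟨fun h => ?_, key l p hl⟩
  have := key l⁻¹ _ (inv_ne_zero hl) h
  rwa [act_inv_act hl] at this

theorem act_mem_Gam {l : ℂ} (hl : l ≠ 0) {p : Fin 6 → ℂ} : act l p ∈ Gam ↔ p ∈ Gam := by
  have key : ∀ (m : ℂ) (p : Fin 6 → ℂ), p ∈ Gam → act m p ∈ Gam := by
    rintro m p ⟨h1, h2, h3, h4⟩
    refine ⟨by rw [act_five', h1], by rw [act_one', h2, mul_zero], ?_, ?_⟩
    · rw [act_three', act_zero', act_two', h3]
      ring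
    · rw [act_four', act_zero', h4]
      ring
  refine ⟨fun h => ?_, key l p⟩
  have := key l⁻¹ _ h
  rwa [act_inv_act hl] at this

theorem continuous_act : Continuous (fun x : ℂ × (Fin 6 → ℂ) => act x.1 x.2) := by
  refine continuous_pi fun i => ?_
  simp only [act]
  fun_prop

theorem continuousOn_act' :
    ContinuousOn (fun x : ℂ × (Fin 5 → ℂ) => act' x.1 x.2) {x | x.1 ≠ 0} := by
  refine continuousOn_pi.2 fun i => ?_
  simp only [act']
  refine ContinuousOn.mul ?_ (by fun_prop)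
  intro x hx
  exact (ContinuousAt.zpow₀ continuousAt_fst _ (Or.inl hx)).continuousWithinAt

theorem continuous_act'_right (l : ℂ) : Continuous (act' l) := by
  refine continuous_pi fun i => ?_
  simp only [act']
  fun_prop

theorem continuous_act_right (l : ℂ) : Continuous (act l) := by
  refine continuous_pi fun i => ?_
  simp only [act]
  fun_prop

theorem analyticAt_act (l : ℂ) (p : Fin 6 → ℂ) : AnalyticAt ℂ (act l) p := by
  refine analyticAt_pi_iff.2 fun i => ?_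
  simp only [act]
  exact analyticAt_const.mul ((ContinuousLinearMap.proj (R := ℂ) (φ := fun _ : Fin 6 => ℂ)
    i).analyticAt p)

theorem analyticAt_act' (l : ℂ) (q : Fin 5 → ℂ) : AnalyticAt ℂ (act' l) q := by
  refine analyticAt_pi_iff.2 fun i => ?_
  simp only [act']
  exact analyticAt_const.mul ((ContinuousLinearMap.proj (R := ℂ) (φ := fun _ : Fin 5 => ℂ)
    i).analyticAt q)

theorem continuous_G : Continuous G := by
  unfold G
  fun_prop

theorem isClosed_Gam : IsClosed Gam := by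
  unfold Gam
  simp only [Set.ofPred_and]
  refine IsClosed.inter ?_ (IsClosed.inter ?_ (IsClosed.inter ?_ ?_)) <;>
  exact isClosed_eq (by fun_prop) (by fun_prop)

theorem continuous_nA : Continuous nA := by
  unfold nA
  refine Continuous.max (by fun_prop) (Continuous.max ?_ ?_)
  · exact (continuous_norm.comp (continuous_apply 1)).rpow_const fun _ => Or.inr (by norm_num)
  · exact (continuous_norm.comp (continuous_apply 2)).rpow_const fun _ => Or.inr (by norm_num)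

theorem continuous_nZ : Continuous nZ := by
  unfold nZ
  refine Continuous.max (by fun_prop) ?_
  exact (continuous_norm.comp (continuous_apply 4)).rpow_const fun _ => Or.inr (by norm_num)

theorem continuous_nP : Continuous nP := by
  unfold nP
  refine Continuous.max (by fun_prop) (Continuous.max ?_ (Continuous.max ?_
    (Continuous.max ?_ ?_))) <;>
  exact (continuous_norm.comp (continuous_apply _)).rpow_const fun _ => Or.inr (by norm_num)

theorem isOpen_Dom (r : ℝ) : IsOpen (Dom r) :=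
  isOpen_lt (continuous_nA.mul continuous_nZ) continuous_const

theorem nA_act' {l : ℂ} (hl : l ≠ 0) (q : Fin 5 → ℂ) : nA (act' l q) = ‖l‖⁻¹ * nA q := by
  have h0 : 0 < ‖l‖ := norm_pos_iff.2 hl
  have hi : 0 ≤ ‖l‖⁻¹ := by positivity
  have e0 : ‖act' l q 0‖ = ‖l‖⁻¹ * ‖q 0‖ := by rw [act'_zero', norm_mul, norm_inv]
  have e1 : ‖act' l q 1‖ = (‖l‖⁻¹) ^ 2 * ‖q 1‖ := by
    rw [act'_one', norm_mul, norm_inv, norm_pow, inv_pow]
  have e2 : ‖act' l q 2‖ = (‖l‖⁻¹) ^ 3 * ‖q 2‖ := by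
    rw [act'_two', norm_mul, norm_inv, norm_pow, inv_pow]
  unfold nA
  rw [e0, e1, e2, Real.mul_rpow (by positivity) (norm_nonneg _),
    Real.mul_rpow (by positivity) (norm_nonneg _), ← Real.rpow_natCast, ← Real.rpow_natCast,
    ← Real.rpow_mul hi, ← Real.rpow_mul hi, mul_max_of_nonneg _ _ hi, mul_max_of_nonneg _ _ hi]
  norm_num

theorem nZ_act' (l : ℂ) (q : Fin 5 → ℂ) : nZ (act' l q) = ‖l‖ * nZ q := by
  have h0 : 0 ≤ ‖l‖ := norm_nonneg l
  have e3 : ‖act' l q 3‖ = ‖l‖ * ‖q 3‖ := by rw [act'_three', norm_mul]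
  have e4 : ‖act' l q 4‖ = ‖l‖ ^ 6 * ‖q 4‖ := by rw [act'_four', norm_mul, norm_pow]
  unfold nZ
  rw [e3, e4, Real.mul_rpow (by positivity) (norm_nonneg _), ← Real.rpow_natCast,
    ← Real.rpow_mul h0, mul_max_of_nonneg _ _ h0]
  norm_num

theorem nP_act (l : ℂ) (p : Fin 6 → ℂ) : nP (act l p) = ‖l‖ * nP p := by
  have h0 : 0 ≤ ‖l‖ := norm_nonneg l
  have e0 : ‖act l p 0‖ = ‖l‖ * ‖p 0‖ := by rw [act_zero', norm_mul]
  have e1 : ‖act l p 1‖ = ‖l‖ ^ 5 * ‖p 1‖ := by rw [act_one', norm_mul, norm_pow]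
  have e2 : ‖act l p 2‖ = ‖l‖ ^ 6 * ‖p 2‖ := by rw [act_two', norm_mul, norm_pow]
  have e3 : ‖act l p 3‖ = ‖l‖ ^ 22 * ‖p 3‖ := by rw [act_three', norm_mul, norm_pow]
  have e4 : ‖act l p 4‖ = ‖l‖ ^ 33 * ‖p 4‖ := by rw [act_four', norm_mul, norm_pow]
  unfold nP
  rw [e0, e1, e2, e3, e4, Real.mul_rpow (by positivity) (norm_nonneg _),
    Real.mul_rpow (by positivity) (norm_nonneg _), Real.mul_rpow (by positivity) (norm_nonneg _),
    Real.mul_rpow (by positivity) (norm_nonneg _),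
    ← Real.rpow_natCast, ← Real.rpow_natCast, ← Real.rpow_natCast, ← Real.rpow_natCast,
    ← Real.rpow_mul h0, ← Real.rpow_mul h0, ← Real.rpow_mul h0, ← Real.rpow_mul h0,
    mul_max_of_nonneg _ _ h0, mul_max_of_nonneg _ _ h0, mul_max_of_nonneg _ _ h0,
    mul_max_of_nonneg _ _ h0]
  norm_num

theorem nA_nonneg (q : Fin 5 → ℂ) : 0 ≤ nA q := (norm_nonneg _).trans (le_max_left _ _)

theorem nZ_nonneg (q : Fin 5 → ℂ) : 0 ≤ nZ q := (norm_nonneg _).trans (le_max_left _ _)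

theorem nP_nonneg (p : Fin 6 → ℂ) : 0 ≤ nP p := (norm_nonneg _).trans (le_max_left _ _)

theorem rpow_pos_iff' {x : ℂ} {a : ℝ} (ha : a ≠ 0) : 0 < ‖x‖ ^ a ↔ x ≠ 0 := by
  refine ⟨fun h h0 => ?_, fun h => Real.rpow_pos_of_pos (norm_pos_iff.2 h) _⟩
  rw [h0, norm_zero, Real.zero_rpow ha] at h
  exact lt_irrefl _ h

theorem nA_pos {q : Fin 5 → ℂ} : 0 < nA q ↔ q 0 ≠ 0 ∨ q 1 ≠ 0 ∨ q 2 ≠ 0 := by
  unfold nA
  rw [lt_max_iff, lt_max_iff, rpow_pos_iff' (by norm_num), rpow_pos_iff' (by norm_num),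
    norm_pos_iff]

theorem nZ_pos {q : Fin 5 → ℂ} : 0 < nZ q ↔ q 3 ≠ 0 ∨ q 4 ≠ 0 := by
  unfold nZ
  rw [lt_max_iff, rpow_pos_iff' (by norm_num), norm_pos_iff]

theorem nP_pos {p : Fin 6 → ℂ} : 0 < nP p ↔ ∃ i : Fin 6, i ≠ 5 ∧ p i ≠ 0 := by
  unfold nP
  rw [lt_max_iff, lt_max_iff, lt_max_iff, lt_max_iff, rpow_pos_iff' (by norm_num),
    rpow_pos_iff' (by norm_num), rpow_pos_iff' (by norm_num), rpow_pos_iff' (by norm_num),
    norm_pos_iff]
  constructor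
  · rintro (h | h | h | h | h)
    · exact ⟨0, by decide, h⟩
    · exact ⟨1, by decide, h⟩
    · exact ⟨2, by decide, h⟩
    · exact ⟨3, by decide, h⟩
    · exact ⟨4, by decide, h⟩
  · rintro ⟨i, hi, h⟩
    fin_cases i
    · exact Or.inl h
    · exact Or.inr (Or.inl h)
    · exact Or.inr (Or.inr (Or.inl h))
    · exact Or.inr (Or.inr (Or.inr (Or.inl h)))
    · exact Or.inr (Or.inr (Or.inr (Or.inr h)))
    · exact absurd rfl hi

end Pool.Agent.KO
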