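import Pool.Agent.KO.Xa.Defs

/-!
# Block Xa, row Xa4: general facts on the structure sheaves (helper30)
-/

set_option autoImplicit false

namespace Pool.Agent.KO

open Set Filter Topology

/-- The sheaf facts at a point with a local model: `π : Y → X` is continuous and open, and
holomorphic functions are tested on `Y`, through `ι : Y → ℂ^N`. -/
theorem shf_local {X Y : Type} [TopologicalSpace X] [TopologicalSpace Y] {O : Shf X} {N : ℕ}
    (π : Y → X) (ι : Y → Fin N → ℂ) (hπ : Continuous π) (ho : IsOpenMap π) (hι : Continuous ι)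
    (h : ∀ (f : X → ℂ) (y : Y), O f (π y) ↔ ∃ H : (Fin N → ℂ) → ℂ, AnalyticAt ℂ H (ι y) ∧
      ∀ᶠ y' in 𝓝 y, f (π y') = H (ι y')) (y : Y) :
    (∀ f f' : X → ℂ, f =ᶠ[𝓝 (π y)] f' → O f (π y) → O f' (π y)) ∧
    (∀ f : X → ℂ, O f (π y) → ContinuousAt f (π y)) ∧
    (∀ f : X → ℂ, O f (π y) → ∀ᶠ z in 𝓝 (π y), O f z) ∧
    (∀ (n : ℕ) (f : Fin n → X → ℂ) (H : (Fin n → ℂ) → ℂ), (∀ i, O (f i) (π y)) →
      AnalyticAt ℂ H (fun i => f i (π y)) → O (fun z => H (fun i => f i z)) (π y)) := by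
  have hn : map π (𝓝 y) = 𝓝 (π y) := ho.map_nhds_eq hπ.continuousAt
  refine ⟨?_, ?_, ?_, ?_⟩
  · intro f f' hff hf
    obtain ⟨H, hH, he⟩ := (h f y).1 hf
    refine (h f' y).2 ⟨H, hH, ?_⟩
    filter_upwards [he, hπ.continuousAt.eventually hff] with y' h1 h2
    rw [← h2, h1]
  · intro f hf
    obtain ⟨H, hH, he⟩ := (h f y).1 hf
    have h1 : ContinuousAt (fun y' => H (ι y')) y :=
      ContinuousAt.comp (f := ι) (g := H) hH.continuousAt hι.continuousAt
    have h2 : ContinuousAt (fun y' => f (π y')) y := by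
      refine h1.congr ?_
      filter_upwards [he] with y' h3
      exact h3.symm
    unfold ContinuousAt
    rw [← hn]
    exact tendsto_map'_iff.2 h2
  · intro f hf
    obtain ⟨H, hH, he⟩ := (h f y).1 hf
    rw [← hn, eventually_map]
    filter_upwards [hι.continuousAt.eventually hH.eventually_analyticAt,
      eventually_eventually_nhds.2 he] with y' h1 h2
    exact (h f y').2 ⟨H, h1, h2⟩
  · intro n f H hf hH
    have h1 : ∀ i, ∃ K : (Fin N → ℂ) → ℂ, AnalyticAt ℂ K (ι y) ∧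
        ∀ᶠ y' in 𝓝 y, f i (π y') = K (ι y') := fun i => (h (f i) y).1 (hf i)
    choose K hK hKe using h1
    refine (h _ y).2 ⟨fun u => H (fun i => K i u), ?_, ?_⟩
    · have h2 : (fun i => K i (ι y)) = (fun i => f i (π y)) := by
        funext i
        exact ((hKe i).self_of_nhds).symm
      have h3 : AnalyticAt ℂ (fun u => fun i => K i u) (ι y) := analyticAt_pi_iff.2 hK
      rw [← h2] at hH
      exact AnalyticAt.comp (g := H) (f := fun u => fun i => K i u) hH h3
    · filter_upwards [eventually_all.2 hKe] with y' h4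
      simp only [h4]

theorem shfFacts_of_local {X : Type} [TopologicalSpace X] {O : Shf X}
    (h : ∀ x : X, ∃ (Y : Type) (_ : TopologicalSpace Y) (N : ℕ) (π : Y → X) (ι : Y → Fin N → ℂ),
      Continuous π ∧ IsOpenMap π ∧ Continuous ι ∧ (∀ (f : X → ℂ) (y : Y), O f (π y) ↔
        ∃ H : (Fin N → ℂ) → ℂ, AnalyticAt ℂ H (ι y) ∧ ∀ᶠ y' in 𝓝 y, f (π y') = H (ι y')) ∧
      ∃ y, π y = x) : ShfFacts O where
  congr f f' x := by
    obtain ⟨Y, _, N, π, ι, h1, h2, h3, h4, y, rfl⟩ := h x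
    exact (shf_local π ι h1 h2 h3 h4 y).1 f f'
  cont f x := by
    obtain ⟨Y, _, N, π, ι, h1, h2, h3, h4, y, rfl⟩ := h x
    exact (shf_local π ι h1 h2 h3 h4 y).2.1 f
  opn f x := by
    obtain ⟨Y, _, N, π, ι, h1, h2, h3, h4, y, rfl⟩ := h x
    exact (shf_local π ι h1 h2 h3 h4 y).2.2.1 f
  comp n f x H := by
    obtain ⟨Y, _, N, π, ι, h1, h2, h3, h4, y, rfl⟩ := h x
    exact (shf_local π ι h1 h2 h3 h4 y).2.2.2 n f H

theorem Flip.shfFacts (F : Flip) (hr : F.RelFacts) (ht : F.TopFacts) (ho : F.OFacts) :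
    ShfFacts F.O := by
  refine shfFacts_of_local fun x => ?_
  rcases hr.surj x with ⟨p, hp⟩ | ⟨q, hq, -⟩
  · exact ⟨M1, inferInstance, 6, F.pi1, Subtype.val, ht.cont1, ht.open1, continuous_subtype_val,
      ho.o1, p, hp⟩
  · exact ⟨F.M2, inferInstance, 5, F.pi2, Subtype.val, ht.cont2, ht.open2,
      continuous_subtype_val, ho.o2, q, hq⟩

theorem IsSpace.shfFacts {X : Type} [TopologicalSpace X] {O : Shf X} (h : IsSpace O) :
    ShfFacts O := by
  refine shfFacts_of_local fun x => ?_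
  obtain ⟨N, U, c, Ω, hx, hc⟩ := h x
  refine ⟨U, inferInstance, N, Subtype.val, fun y => c y, continuous_subtype_val,
    hc.isOpen.isOpenMap_subtype_val, hc.isEmbedding.continuous, ?_, ⟨x, hx⟩, rfl⟩
  intro f y
  rw [hc.hol y y.2 f]
  have hn : map (Subtype.val : U → X) (𝓝 y) = 𝓝 (y : X) :=
    hc.isOpen.isOpenMap_subtype_val.map_nhds_eq continuous_subtype_val.continuousAt
  constructor
  · rintro ⟨H, hH, he⟩
    refine ⟨H, hH, ?_⟩
    rw [← hn] at he
    exact he
  · rintro ⟨H, hH, he⟩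
    refine ⟨H, hH, ?_⟩
    rw [← hn]
    exact he

section ops

variable {X : Type} [TopologicalSpace X] {O : Shf X} {x : X}

theorem ShfFacts.const (hs : ShfFacts O) (a : ℂ) (x : X) : O (fun _ => a) x :=
  hs.comp 0 (fun i => i.elim0) x (fun _ => a) (fun i => i.elim0) analyticAt_const

theorem ShfFacts.comp_one (hs : ShfFacts O) {f : X → ℂ} (hf : O f x) {H : ℂ → ℂ}
    (hH : AnalyticAt ℂ H (f x)) : O (fun y => H (f y)) x := by
  have h1 : AnalyticAt ℂ (fun u : Fin 1 → ℂ => H (u 0)) (fun _ => f x) :=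
    AnalyticAt.comp (g := H) (f := fun u : Fin 1 → ℂ => u 0) hH
      ((ContinuousLinearMap.proj (R := ℂ) (φ := fun _ : Fin 1 => ℂ) 0).analyticAt _)
  exact hs.comp 1 (fun _ => f) x (fun u => H (u 0)) (fun _ => hf) h1

theorem ShfFacts.comp_two (hs : ShfFacts O) {f f' : X → ℂ} (hf : O f x) (hf' : O f' x)
    {H : (Fin 2 → ℂ) → ℂ} (hH : AnalyticAt ℂ H ![f x, f' x]) :
    O (fun y => H ![f y, f' y]) x := by
  have h0 : ∀ y, (fun i => (![f, f'] : Fin 2 → X → ℂ) i y) = ![f y, f' y] := by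
    intro y
    funext i
    fin_cases i <;> rfl
  have h1 := hs.comp 2 ![f, f'] x H (by
    intro i
    fin_cases i
    · exact hf
    · exact hf') (by rw [h0]; exact hH)
  simp only [h0] at h1
  exact h1

theorem ShfFacts.add (hs : ShfFacts O) {f f' : X → ℂ} (hf : O f x) (hf' : O f' x) :
    O (f + f') x := by
  have h1 := hs.comp_two hf hf' (H := fun u => u 0 + u 1)
    (((ContinuousLinearMap.proj (R := ℂ) (φ := fun _ : Fin 2 => ℂ) 0).analyticAt _).add
      ((ContinuousLinearMap.proj (R := ℂ) (φ := fun _ : Fin 2 => ℂ) 1).analyticAt _))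
  exact h1

theorem ShfFacts.mul (hs : ShfFacts O) {f f' : X → ℂ} (hf : O f x) (hf' : O f' x) :
    O (f * f') x := by
  have h1 := hs.comp_two hf hf' (H := fun u => u 0 * u 1)
    (((ContinuousLinearMap.proj (R := ℂ) (φ := fun _ : Fin 2 => ℂ) 0).analyticAt _).mul
      ((ContinuousLinearMap.proj (R := ℂ) (φ := fun _ : Fin 2 => ℂ) 1).analyticAt _))
  exact h1

theorem ShfFacts.neg (hs : ShfFacts O) {f : X → ℂ} (hf : O f x) : O (-f) x :=
  hs.comp_one hf (H := fun u => -u) analyticAt_id.neg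

theorem ShfFacts.sub (hs : ShfFacts O) {f f' : X → ℂ} (hf : O f x) (hf' : O f' x) :
    O (f - f') x := by
  rw [sub_eq_add_neg]
  exact hs.add hf (hs.neg hf')

theorem ShfFacts.pow (hs : ShfFacts O) {f : X → ℂ} (hf : O f x) (n : ℕ) : O (f ^ n) x :=
  hs.comp_one hf (H := fun u => u ^ n) (analyticAt_id.pow n)

theorem ShfFacts.inv (hs : ShfFacts O) {f : X → ℂ} (hf : O f x) (h0 : f x ≠ 0) : O f⁻¹ x :=
  hs.comp_one hf (H := fun u => u⁻¹) (analyticAt_id.inv h0)

theorem ShfFacts.div (hs : ShfFacts O) {f f' : X → ℂ} (hf : O f x) (hf' : O f' x)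
    (h0 : f' x ≠ 0) : O (f / f') x := by
  rw [div_eq_mul_inv]
  exact hs.mul hf (hs.inv hf' h0)

theorem ShfFacts.const_mul (hs : ShfFacts O) {f : X → ℂ} (hf : O f x) (a : ℂ) :
    O (fun y => a * f y) x :=
  hs.mul (hs.const a x) hf

theorem ShfFacts.sum (hs : ShfFacts O) {ι : Type} (s : Finset ι) {f : ι → X → ℂ}
    (hf : ∀ i ∈ s, O (f i) x) : O (fun y => ∑ i ∈ s, f i y) x := by
  classical
  induction s using Finset.induction_on with
  | empty =>
    simp only [Finset.sum_empty]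
    exact hs.const 0 x
  | insert a s ha ih =>
    simp only [Finset.sum_insert ha]
    exact hs.add (hf a (Finset.mem_insert_self a s))
      (ih fun i hi => hf i (Finset.mem_insert_of_mem hi))

theorem ShfFacts.sum' (hs : ShfFacts O) {ι : Type} (s : Finset ι) {f : ι → X → ℂ}
    (hf : ∀ i ∈ s, O (f i) x) : O (∑ i ∈ s, f i) x := by
  have h1 := hs.sum s hf
  have h2 : (fun y => ∑ i ∈ s, f i y) = ∑ i ∈ s, f i := by
    funext y
    rw [Finset.sum_apply]
  rw [← h2]
  exact h1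

theorem ShfFacts.prod (hs : ShfFacts O) {ι : Type} (s : Finset ι) {f : ι → X → ℂ}
    (hf : ∀ i ∈ s, O (f i) x) : O (fun y => ∏ i ∈ s, f i y) x := by
  classical
  induction s using Finset.induction_on with
  | empty =>
    simp only [Finset.prod_empty]
    exact hs.const 1 x
  | insert a s ha ih =>
    simp only [Finset.prod_insert ha]
    exact hs.mul (hf a (Finset.mem_insert_self a s))
      (ih fun i hi => hf i (Finset.mem_insert_of_mem hi))

end ops

end Pool.Agent.KO
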