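import Pool.Agent.KO.Xa.Defs

/-!
# Block Xa: density of `π₁(M₁)`, of `z ≠ 0` and of `g ≠ s`; flatness
-/

set_option autoImplicit false

namespace Pool.Agent.KO

open Set Filter Topology

/-- The equation without the term `y²`. -/
private def rest (p : Fin 6 → ℂ) : ℂ :=
  p 3 ^ 3 + p 5 * p 2 ^ 11 + p 1 * p 0 * p 2 ^ 10 + p 1 ^ 12 * p 2 - p 0 ^ 66
    - p 0 ^ 12 * p 2 ^ 9

private theorem G_eq (p : Fin 6 → ℂ) : G p = p 4 ^ 2 + rest p := by
  unfold G rest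
  ring

private theorem rest_update (p : Fin 6 → ℂ) (y : ℂ) : rest (Function.update p 4 y) = rest p := by
  unfold rest
  simp

private theorem continuous_rest : Continuous rest := by
  unfold rest
  fun_prop

/-- Solving the equation for `y`, near a point of the cone. -/
theorem pert_eq {p : Fin 6 → ℂ} (hp : G p = 0) {W : Set (Fin 6 → ℂ)} (hW : W ∈ 𝓝 p) :
    ∀ᶠ p'' in 𝓝 p, ∃ p' ∈ W, G p' = 0 ∧ ∀ i, i ≠ 4 → p' i = p'' i := by
  obtain ⟨ε, hε, hb⟩ := Metric.mem_nhds_iff.1 hW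
  have h1 : ∀ᶠ p'' in 𝓝 p, dist p'' p < ε := Metric.ball_mem_nhds p hε
  have h2 : ∀ᶠ p'' in 𝓝 p, dist (rest p'') (rest p) < ε ^ 2 :=
    continuous_rest.continuousAt (Metric.ball_mem_nhds _ (by positivity))
  filter_upwards [h1, h2] with p'' h1 h2
  obtain ⟨y, hy⟩ : ∃ y : ℂ, y ^ 2 = -rest p'' := by
    obtain ⟨y, hy⟩ := IsAlgClosed.exists_pow_nat_eq (-rest p'') (n := 2) (by norm_num)
    exact ⟨y, hy⟩
  obtain ⟨y', hy', hle⟩ : ∃ y' : ℂ, y' ^ 2 = -rest p'' ∧ ‖y' - p 4‖ ≤ ‖y' + p 4‖ := by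
    rcases le_total ‖y - p 4‖ ‖y + p 4‖ with h | h
    · exact ⟨y, hy, h⟩
    · refine ⟨-y, by rw [neg_sq, hy], ?_⟩
      have e1 : ‖-y - p 4‖ = ‖y + p 4‖ := by
        rw [← norm_neg]
        congr 1
        ring
      have e2 : ‖-y + p 4‖ = ‖y - p 4‖ := by
        rw [← norm_neg]
        congr 1
        ring
      rw [e1, e2]
      exact h
  have hR : rest p = -(p 4 ^ 2) := by
    rw [G_eq] at hp
    linear_combination hp
  have h3 : ‖y' - p 4‖ ^ 2 < ε ^ 2 := by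
    calc ‖y' - p 4‖ ^ 2 = ‖y' - p 4‖ * ‖y' - p 4‖ := sq _
      _ ≤ ‖y' - p 4‖ * ‖y' + p 4‖ := mul_le_mul_of_nonneg_left hle (norm_nonneg _)
      _ = ‖y' ^ 2 - p 4 ^ 2‖ := by
        rw [← norm_mul]
        congr 1
        ring
      _ = dist (rest p'') (rest p) := by
        rw [hy', hR, dist_eq_norm, ← norm_neg]
        congr 1
        ring
      _ < ε ^ 2 := h2
  have h4 : ‖y' - p 4‖ < ε := lt_of_pow_lt_pow_left₀ 2 hε.le h3
  refine ⟨Function.update p'' 4 y', hb ?_, ?_, fun i hi => ?_⟩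
  · rw [Metric.mem_ball, dist_pi_lt_iff hε]
    intro i
    by_cases hi : i = 4
    · subst hi
      rw [Function.update_self, dist_eq_norm]
      exact h4
    · rw [Function.update_of_ne hi]
      exact (dist_pi_lt_iff hε).1 h1 i
  · rw [G_eq, rest_update, Function.update_self, hy']
    ring
  · rw [Function.update_of_ne hi]

/-- The open conditions on the points of the cone outside of `Γ`. -/
theorem isOpen_cond : IsOpen {p : Fin 6 → ℂ | (∃ i : Fin 6, i ≠ 5 ∧ p i ≠ 0) ∧ ‖p 5‖ < 1 ∧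
    p ∉ Gam} := by
  have h1 : IsOpen {p : Fin 6 → ℂ | ∃ i : Fin 6, i ≠ 5 ∧ p i ≠ 0} := by
    have : {p : Fin 6 → ℂ | ∃ i : Fin 6, i ≠ 5 ∧ p i ≠ 0} = {p | 0 < nP p} := by
      ext p
      exact nP_pos.symm
    rw [this]
    exact isOpen_lt continuous_const continuous_nP
  have h2 : IsOpen {p : Fin 6 → ℂ | ‖p 5‖ < 1} :=
    isOpen_lt (continuous_norm.comp (continuous_apply 5)) continuous_const
  have h3 : IsOpen (Gamᶜ) := isClosed_Gam.isOpen_compl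
  exact h1.inter (h2.inter h3)

theorem dense_cond (s : ℂ) : Dense {p : Fin 6 → ℂ | p 0 ≠ 0 ∧ p 5 ≠ s} := by
  have h1 : Dense {p : Fin 6 → ℂ | p 0 ≠ 0} :=
    (dense_compl_singleton (0 : ℂ)).preimage (isOpenMap_eval (0 : Fin 6))
  have h2 : Dense {p : Fin 6 → ℂ | p 5 ≠ s} :=
    (dense_compl_singleton s).preimage (isOpenMap_eval (5 : Fin 6))
  have h3 : IsOpen {p : Fin 6 → ℂ | p 0 ≠ 0} :=
    isOpen_ne_fun (continuous_apply 0) continuous_const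
  exact h1.inter_of_isOpen_left h2 h3

/-- Points of `M₁` are limits of points of `M₁` with `z ≠ 0` and `t ≠ s`. -/
theorem Flip.pert1 (s : ℂ) (p : Flip.M1) {W : Set Flip.M1} (hW : W ∈ 𝓝 p) :
    ∃ p' ∈ W, p'.1 0 ≠ 0 ∧ p'.1 5 ≠ s := by
  obtain ⟨W', hW', hsub⟩ := (mem_nhds_subtype _ p W).1 hW
  obtain ⟨hp1, hp2⟩ := p.2
  have hop : {p : Fin 6 → ℂ | (∃ i : Fin 6, i ≠ 5 ∧ p i ≠ 0) ∧ ‖p 5‖ < 1 ∧ p ∉ Gam} ∈ 𝓝 p.1 :=
    isOpen_cond.mem_nhds ⟨hp1.2.1, hp1.2.2, hp2⟩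
  have hev := pert_eq hp1.1 (inter_mem hW' hop)
  obtain ⟨p'', ⟨h0, h5⟩, p', ⟨hp'W, hc1, hc2, hc3⟩, hG, hi⟩ :=
    (dense_cond s).inter_nhds_nonempty hev
  refine ⟨⟨p', ⟨hG, hc1, hc2⟩, hc3⟩, hsub hp'W, ?_, ?_⟩
  · show p' 0 ≠ 0
    rw [hi 0 (by decide)]
    exact h0
  · show p' 5 ≠ s
    rw [hi 5 (by decide)]
    exact h5

theorem Flip.g_pi1_xa (F : Flip) (p : Flip.M1) : F.g (F.pi1 p) = p.1 5 := rfl

theorem Flip.dense_range_pi1 (F : Flip) (hr : F.RelFacts) (ht : F.TopFacts) :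
    Dense (range F.pi1) := by
  intro x
  rcases hr.surj x with ⟨p, rfl⟩ | ⟨q, rfl, h3, h4⟩
  · exact subset_closure (mem_range_self p)
  rw [mem_closure_iff_nhds]
  intro N hN
  have hN' : F.pi2 ⁻¹' N ∈ 𝓝 q := ht.cont2.continuousAt hN
  obtain ⟨W, hW, hsub⟩ := (mem_nhds_subtype _ q _).1 hN'
  have hD : Dom F.ρ ∈ 𝓝 q.1 := (isOpen_Dom F.ρ).mem_nhds q.2.1
  have hc : Tendsto (fun e : ℂ => Function.update q.1 3 e) (𝓝[≠] 0) (𝓝 q.1) := by
    have h1 : Continuous (fun e : ℂ => Function.update q.1 3 e) :=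
      continuous_const.update 3 continuous_id
    have h2 := h1.tendsto 0
    have h0 : Function.update q.1 3 0 = q.1 := by
      have h5 := Function.update_eq_self (3 : Fin 5) q.1
      rwa [h3] at h5
    rw [h0] at h2
    exact h2.mono_left nhdsWithin_le_nhds
  have hev : ∀ᶠ e in 𝓝[≠] (0 : ℂ), Function.update q.1 3 e ∈ W ∩ Dom F.ρ := hc (inter_mem hW hD)
  have hev2 : ∀ᶠ e in 𝓝[≠] (0 : ℂ), e ∈ ({0} : Set ℂ)ᶜ := self_mem_nhdsWithin
  obtain ⟨e, ⟨heW, heD⟩, he0⟩ := (hev.and hev2).exists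
  have he0' : e ≠ 0 := he0
  have hq' : Function.update q.1 3 e ∈ Dom F.ρ ∧ (Function.update q.1 3 e 0 ≠ 0 ∨
      Function.update q.1 3 e 1 ≠ 0 ∨ Function.update q.1 3 e 2 ≠ 0) := by
    refine ⟨heD, ?_⟩
    rw [Function.update_of_ne (by decide), Function.update_of_ne (by decide),
      Function.update_of_ne (by decide)]
    exact q.2.2
  have hne : (⟨Function.update q.1 3 e, hq'⟩ : F.M2).1 3 ≠ 0 := by
    show Function.update q.1 3 e 3 ≠ 0
    rw [Function.update_self]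
    exact he0'
  refine ⟨F.pi2 ⟨Function.update q.1 3 e, hq'⟩, hsub heW, ?_⟩
  refine ⟨⟨F.Φ (Function.update q.1 3 e), hr.mem1 ⟨_, hq'⟩ (Or.inl hne)⟩, ?_⟩
  exact (hr.eq12 _ _).2 ⟨Or.inl hne, 1, one_ne_zero, by rw [act_one]⟩

theorem Flip.denseFacts (F : Flip) (hr : F.RelFacts) (ht : F.TopFacts) (hd : F.DescFacts) :
    F.DenseFacts := by
  have hg : ∀ s : ℂ, Dense {x : F.Sp | x ∉ F.Z ∧ F.g x ≠ s} := by
    intro s
    have hsub : range F.pi1 ⊆ closure {x : F.Sp | x ∉ F.Z ∧ F.g x ≠ s} := by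
      rintro _ ⟨p, rfl⟩
      rw [mem_closure_iff_nhds]
      intro N hN
      obtain ⟨p', hp', h0, h5⟩ := Flip.pert1 s p (ht.cont1.continuousAt hN)
      refine ⟨F.pi1 p', hp', ?_, ?_⟩
      · rw [hd.z1]
        exact h0
      · rw [Flip.g_pi1_xa]
        exact h5
    intro x
    have := closure_minimal hsub isClosed_closure (F.dense_range_pi1 hr ht x)
    exact this
  exact ⟨F.dense_range_pi1 hr ht, (hg 0).mono fun x hx => hx.1, hg⟩

theorem Flip.flat (F : Flip) (hs : ShfFacts F.O) (hd : F.DenseFacts) : IsFlat F.O F.g := by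
  intro x f hf hz
  filter_upwards [hs.opn f x hf, hz.eventually_nhds] with y hy hzy
  by_contra hne
  have h1 : ∀ᶠ y' in 𝓝 y, f y' ≠ 0 := (hs.cont f y hy).eventually_ne hne
  have h2 : {y' | f y' ≠ 0 ∧ (F.g y' - F.g x) * f y' = 0} ∈ 𝓝 y := h1.and hzy
  obtain ⟨y', ⟨-, h5⟩, h3, h4⟩ := (hd.dg (F.g x)).inter_nhds_nonempty h2
  rcases mul_eq_zero.1 h4 with h | h
  · exact h5 (sub_eq_zero.1 h)
  · exact h3 h

end Pool.Agent.KO
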