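import Pool.Agent.KO.Xa.Defs

/-!
# Descending functions to `X`
-/

set_option autoImplicit false

namespace Pool.Agent.KO

open Set Filter Topology

namespace Flip

variable (F : Flip)

theorem g_pi1_xd (p : M1) : F.g (F.pi1 p) = p.1 5 := rfl

theorem g_pi2_xd (q : F.M2) : F.g (F.pi2 q) = F.Φ q.1 5 := rfl

theorem ind_pi_xd {P : F.Sp → Prop} (h1 : ∀ p : M1, P (F.pi1 p)) (h2 : ∀ q : F.M2, P (F.pi2 q)) :
    ∀ x, P x := by
  intro x
  induction x using Quot.ind with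
  | mk m =>
    rcases m with p | q
    · exact h1 p
    · exact h2 q

theorem disc : ∀ x, ‖F.g x‖ < 1 := by
  refine F.ind_pi_xd ?_ ?_
  · intro p
    rw [g_pi1_xd]
    exact p.2.1.2.2
  · intro q
    rw [g_pi2_xd]
    exact F.small q.1 q.2.1

theorem hol : ∀ x, F.O F.g x := by
  intro x
  refine ⟨fun p _ => ⟨fun p => p 5, ?_, Filter.Eventually.of_forall fun p' => rfl⟩,
    fun q _ => ⟨fun q => F.Φ q 5, F.an 5 q.1 q.2.1, Filter.Eventually.of_forall fun q' => rfl⟩⟩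
  exact (ContinuousLinearMap.proj (R := ℂ) (φ := fun _ : Fin 6 => ℂ) 5).analyticAt p.1

variable {F}

theorem desc1_pi1_xd (hr : F.RelFacts) (h : (Fin 6 → ℂ) → ℂ)
    (hh : ∀ l : ℂ, l ≠ 0 → ∀ p, h (act l p) = h p) (p : M1) : F.desc1 h (F.pi1 p) = h p.1 := by
  have H : ∃ p' : M1, F.pi1 p' = F.pi1 p := ⟨p, rfl⟩
  unfold desc1
  rw [dif_pos H]
  obtain ⟨l, hl, e⟩ := (hr.eq11 _ _).1 H.choose_spec
  rw [e, hh l hl]

theorem desc2_pi2_xd (hr : F.RelFacts) (h : (Fin 5 → ℂ) → ℂ)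
    (hh : ∀ l : ℂ, l ≠ 0 → ∀ q ∈ Dom F.ρ, h (act' l q) = h q) (q : F.M2) :
    F.desc2 h (F.pi2 q) = h q.1 := by
  have H : ∃ q' : F.M2, F.pi2 q' = F.pi2 q := ⟨q, rfl⟩
  unfold desc2
  rw [dif_pos H]
  obtain ⟨l, hl, e⟩ := (hr.eq22 _ _).1 H.choose_spec
  rw [e, hh l hl _ H.choose.2.1]

theorem mem_V1_xd (hr : F.RelFacts) (i : Fin 6) (p : M1) : F.pi1 p ∈ F.V1 i ↔ p.1 i ≠ 0 := by
  refine ⟨?_, fun h => ⟨p, rfl, h⟩⟩
  rintro ⟨p', e, h⟩
  obtain ⟨l, hl, e⟩ := (hr.eq11 _ _).1 e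
  rw [e]
  exact (act_apply_ne hl _ _).2 h

theorem mem_V2_xd (hr : F.RelFacts) (j : Fin 5) (q : F.M2) : F.pi2 q ∈ F.V2 j ↔ q.1 j ≠ 0 := by
  refine ⟨?_, fun h => ⟨q, rfl, h⟩⟩
  rintro ⟨q', e, h⟩
  obtain ⟨l, hl, e⟩ := (hr.eq22 _ _).1 e
  rw [e]
  exact (act'_apply_ne hl _ _).2 h

theorem mem_Z1_xd (hr : F.RelFacts) (p : M1) : F.pi1 p ∈ F.Z ↔ p.1 0 = 0 := by
  refine ⟨fun h => h.1 p rfl, fun h => ⟨?_, ?_⟩⟩
  · intro p' e
    obtain ⟨l, hl, e⟩ := (hr.eq11 _ _).1 e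
    rw [e, act_zero', mul_eq_zero] at h
    exact h.resolve_left hl
  · intro q e
    obtain ⟨-, l, hl, e⟩ := (hr.eq12 _ _).1 e.symm
    rw [e, act_zero', mul_eq_zero, F.Φz] at h
    exact h.resolve_left hl

theorem mem_Z2_xd (hr : F.RelFacts) (q : F.M2) : F.pi2 q ∈ F.Z ↔ q.1 3 = 0 := by
  refine ⟨fun h => h.2 q rfl, fun h => ⟨?_, ?_⟩⟩
  · intro p e
    obtain ⟨-, l, hl, e⟩ := (hr.eq12 _ _).1 e
    rw [e, act_zero', F.Φz, h, mul_zero]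
  · intro q' e
    obtain ⟨l, hl, e⟩ := (hr.eq22 _ _).1 e
    rw [e, act'_three', mul_eq_zero] at h
    exact h.resolve_left hl

theorem isOpen_V1_xd (ht : F.TopFacts) (i : Fin 6) : IsOpen (F.V1 i) := by
  have e : F.V1 i = F.pi1 '' {p : M1 | p.1 i ≠ 0} := by
    ext x
    constructor
    · rintro ⟨p, e, h⟩
      exact ⟨p, h, e⟩
    · rintro ⟨p, h, e⟩
      exact ⟨p, e, h⟩
  rw [e]
  refine ht.open1 _ ?_
  exact isOpen_ne_fun ((continuous_apply i).comp continuous_subtype_val) continuous_const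

theorem isOpen_V2_xd (ht : F.TopFacts) (j : Fin 5) : IsOpen (F.V2 j) := by
  have e : F.V2 j = F.pi2 '' {q : F.M2 | q.1 j ≠ 0} := by
    ext x
    constructor
    · rintro ⟨q, e, h⟩
      exact ⟨q, h, e⟩
    · rintro ⟨q, h, e⟩
      exact ⟨q, e, h⟩
  rw [e]
  refine ht.open2 _ ?_
  exact isOpen_ne_fun ((continuous_apply j).comp continuous_subtype_val) continuous_const

variable (F)

theorem descFacts (hr : F.RelFacts) (ht : F.TopFacts) (ho : F.OFacts) : F.DescFacts where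
  v1 h hh p := desc1_pi1_xd hr h hh p
  v2 h hh q := desc2_pi2_xd hr h hh q
  h1 h hh p hp := (ho.o1 _ p).2 ⟨h, hp, Filter.Eventually.of_forall fun p' =>
    desc1_pi1_xd hr h hh p'⟩
  h2 h hh q hq := (ho.o2 _ q).2 ⟨h, hq, Filter.Eventually.of_forall fun q' =>
    desc2_pi2_xd hr h hh q'⟩
  open1 i := isOpen_V1_xd ht i
  open2 j := isOpen_V2_xd ht j
  mem1 i p := mem_V1_xd hr i p
  mem2 j q := mem_V2_xd hr j q
  cover x := by
    rcases hr.surj x with ⟨p, hp⟩ | ⟨q, hq, h3, h4⟩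
    · obtain ⟨i, hi, h⟩ := p.2.1.2.1
      exact Or.inl ⟨i, hi, p, hp, h⟩
    · refine Or.inr ⟨?_, q, hq, h3, h4⟩
      rcases q.2.2 with h | h | h
      · exact ⟨0, by decide, q, hq, h⟩
      · exact ⟨1, by decide, q, hq, h⟩
      · exact ⟨2, by decide, q, hq, h⟩
  z1 p := mem_Z1_xd hr p
  z2 q := mem_Z2_xd hr q

end Flip

end Pool.Agent.KO
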