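import Pool.Agent.KO.Xa.Defs

/-!
# Block Xa: functions on `X` are tested at one representative
-/

set_option autoImplicit false

namespace Pool.Agent.KO

open Set Filter Topology

/-- Transport of a local description along an analytic map of representatives. -/
theorem OF_transfer {m n : ℕ} {X : Type} {PA : (Fin m → ℂ) → Prop} {PB : (Fin n → ℂ) → Prop}
    (πA : {a : Fin m → ℂ // PA a} → X) (πB : {b : Fin n → ℂ // PB b} → X)
    (a : {a : Fin m → ℂ // PA a}) (b : {b : Fin n → ℂ // PB b})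
    (T : (Fin m → ℂ) → (Fin n → ℂ)) (hT : AnalyticAt ℂ T a.1) (hab : T a.1 = b.1)
    (hev : ∀ᶠ a' in 𝓝 a, ∃ h : PB (T a'.1), πB ⟨T a'.1, h⟩ = πA a') (f : X → ℂ)
    (hH : ∃ H : (Fin n → ℂ) → ℂ, AnalyticAt ℂ H b.1 ∧ ∀ᶠ b' in 𝓝 b, f (πB b') = H b'.1) :
    ∃ H : (Fin m → ℂ) → ℂ, AnalyticAt ℂ H a.1 ∧ ∀ᶠ a' in 𝓝 a, f (πA a') = H a'.1 := by
  obtain ⟨H, hHan, hHev⟩ := hH
  refine ⟨H ∘ T, ?_, ?_⟩
  · refine AnalyticAt.comp ?_ hT
    rw [hab]
    exact hHan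
  · obtain ⟨u, hu, hsub⟩ := mem_nhds_subtype _ _ _ |>.1 hHev
    have hc : Tendsto (fun a' : {a : Fin m → ℂ // PA a} => T a'.1) (𝓝 a) (𝓝 b.1) := by
      have h1 : Tendsto T (𝓝 a.1) (𝓝 (T a.1)) := hT.continuousAt
      rw [hab] at h1
      exact h1.comp continuous_subtype_val.continuousAt
    filter_upwards [hev, hc hu] with a' ⟨h, h2⟩ h3
    have h4 : (⟨T a'.1, h⟩ : {b : Fin n → ℂ // PB b}) ∈ Subtype.val ⁻¹' u := h3
    have h5 : f (πB ⟨T a'.1, h⟩) = H (T a'.1) := hsub h4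
    rw [← h2, h5]
    rfl

/-- The functions on `X` near a point are tested at one representative. -/
theorem Flip.oFacts (F : Flip) (hr : F.RelFacts) : F.OFacts := by
  refine ⟨fun f p => ⟨fun h => h.1 p rfl, fun hH => ⟨?_, ?_⟩⟩,
    fun f q => ⟨fun h => h.2 q rfl, fun hH => ⟨?_, ?_⟩⟩⟩
  · intro p1 h1
    obtain ⟨l, hl, hp⟩ := (hr.eq11 p p1).1 h1.symm
    refine OF_transfer F.pi1 F.pi1 p1 p (act l⁻¹) (analyticAt_act _ _) ?_ ?_ f hH
    · rw [hp, act_inv_act hl]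
    · refine Eventually.of_forall fun p' => ?_
      have hli : l⁻¹ ≠ 0 := inv_ne_zero hl
      refine ⟨⟨(act_mem_Cone hli).2 p'.2.1, fun h => p'.2.2 ((act_mem_Gam hli).1 h)⟩, ?_⟩
      exact (hr.eq11 _ _).2 ⟨l, hl, (act_act_inv hl _).symm⟩
  · intro q hq
    obtain ⟨hzw, l, hl, hp⟩ := (hr.eq12 p q).1 hq.symm
    have hΦ : AnalyticAt ℂ F.Φ q.1 := analyticAt_pi_iff.2 fun i => F.an i q.1 q.2.1
    refine OF_transfer F.pi2 F.pi1 q p (act l ∘ F.Φ) ((analyticAt_act l _).comp hΦ) ?_ ?_ f hH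
    · rw [hp]
      rfl
    · have hcv : Continuous (fun q' : F.M2 => q'.1) := continuous_subtype_val
      have hnz : ∀ᶠ q' : F.M2 in 𝓝 q, q'.1 3 ≠ 0 ∨ q'.1 4 ≠ 0 := by
        rcases hzw with h | h
        · have : ContinuousAt (fun q' : F.M2 => q'.1 3) q :=
            ((continuous_apply 3).comp hcv).continuousAt
          filter_upwards [this.eventually_ne h] with q' h'
          exact Or.inl h'
        · have : ContinuousAt (fun q' : F.M2 => q'.1 4) q :=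
            ((continuous_apply 4).comp hcv).continuousAt
          filter_upwards [this.eventually_ne h] with q' h'
          exact Or.inr h'
      filter_upwards [hnz] with q' hq'
      obtain ⟨m1, m2⟩ := hr.mem1 q' hq'
      refine ⟨⟨(act_mem_Cone hl).2 m1, fun h => m2 ((act_mem_Gam hl).1 h)⟩, ?_⟩
      exact (hr.eq12 _ _).2 ⟨hq', l, hl, rfl⟩
  · intro p hp0
    obtain ⟨hzw, l, hl, hp⟩ := (hr.eq12 p q).1 hp0
    obtain ⟨Ψ, hΨan, hΨq, -, hΨev⟩ := F.inv q.1 q.2.1 hzw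
    have hpl : act l⁻¹ p.1 = F.Φ q.1 := by rw [hp, act_inv_act hl]
    have hΨan' : AnalyticAt ℂ Ψ (act l⁻¹ p.1) := by
      rw [hpl]
      exact hΨan
    refine OF_transfer F.pi1 F.pi2 p q (Ψ ∘ act l⁻¹) (hΨan'.comp (analyticAt_act _ _)) ?_ ?_ f hH
    · show Ψ (act l⁻¹ p.1) = q.1
      rw [hpl, hΨq]
    · have hli : l⁻¹ ≠ 0 := inv_ne_zero hl
      have hΨc : Tendsto Ψ (𝓝 (F.Φ q.1)) (𝓝 q.1) := by
        have := hΨan.continuousAt
        unfold ContinuousAt at this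
        rwa [hΨq] at this
      have ht : Tendsto (fun p' : M1 => act l⁻¹ p'.1) (𝓝 p) (𝓝 (F.Φ q.1)) := by
        have h1 : ContinuousAt (fun p' : M1 => act l⁻¹ p'.1) p :=
          ((continuous_act_right l⁻¹).comp continuous_subtype_val).continuousAt
        unfold ContinuousAt at h1
        beta_reduce at h1
        rwa [hpl] at h1
      have hop : {q' : Fin 5 → ℂ | q' ∈ Dom F.ρ ∧ (q' 0 ≠ 0 ∨ q' 1 ≠ 0 ∨ q' 2 ≠ 0) ∧
          (q' 3 ≠ 0 ∨ q' 4 ≠ 0)} ∈ 𝓝 q.1 := by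
        have h1 : IsOpen {q' : Fin 5 → ℂ | q' ∈ Dom F.ρ ∧ (q' 0 ≠ 0 ∨ q' 1 ≠ 0 ∨ q' 2 ≠ 0) ∧
            (q' 3 ≠ 0 ∨ q' 4 ≠ 0)} := by
          refine (isOpen_Dom F.ρ).inter (IsOpen.inter ?_ ?_)
          · refine (isOpen_ne_fun (continuous_apply 0) continuous_const).union
              ((isOpen_ne_fun (continuous_apply 1) continuous_const).union
                (isOpen_ne_fun (continuous_apply 2) continuous_const))
          · exact (isOpen_ne_fun (continuous_apply 3) continuous_const).union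
              (isOpen_ne_fun (continuous_apply 4) continuous_const)
        exact h1.mem_nhds ⟨q.2.1, q.2.2, hzw⟩
      filter_upwards [ht (hΨc hop), ht hΨev] with p' ⟨h1, h2, h3⟩ h4
      refine ⟨⟨h1, h2⟩, ?_⟩
      refine ((hr.eq12 p' ⟨Ψ (act l⁻¹ p'.1), h1, h2⟩).2 ⟨h3, l, hl, ?_⟩).symm
      have h5 : G (act l⁻¹ p'.1) = 0 := ((act_mem_Cone hli).2 p'.2.1).1
      have h6 : F.Φ (Ψ (act l⁻¹ p'.1)) = act l⁻¹ p'.1 := h4 h5
      show p'.1 = act l (F.Φ (Ψ (act l⁻¹ p'.1)))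
      rw [h6, act_act_inv hl]
  · intro q1 h1
    obtain ⟨l, hl, hq⟩ := (hr.eq22 q q1).1 h1.symm
    refine OF_transfer F.pi2 F.pi2 q1 q (act' l⁻¹) (analyticAt_act' _ _) ?_ ?_ f hH
    · rw [hq, act'_inv_act' hl]
    · refine Eventually.of_forall fun q' => ?_
      have hli : l⁻¹ ≠ 0 := inv_ne_zero hl
      refine ⟨⟨Flip.act'_Dom hli q'.2.1, ?_⟩, ?_⟩
      · rcases q'.2.2 with h | h | h
        · exact Or.inl ((act'_apply_ne hli _ _).2 h)
        · exact Or.inr (Or.inl ((act'_apply_ne hli _ _).2 h))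
        · exact Or.inr (Or.inr ((act'_apply_ne hli _ _).2 h))
      · exact (hr.eq22 _ _).2 ⟨l, hl, (act'_act'_inv hl _).symm⟩

end Pool.Agent.KO
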