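import Pool.Agent.KO.Xa.Defs

/-!
# `X` is proper over the disc (block Xa)
-/

set_option autoImplicit false

namespace Pool.Agent.KO

open Set Filter Topology

namespace ProperX

theorem le_of_rpow_le {x a b : ℝ} (hx : 0 ≤ x) (n : ℕ) (_hn : n ≠ 0) (ha : a * n = 1)
    (h : x ^ a ≤ b) : x ≤ b ^ n := by
  have h1 : (x ^ a) ^ n ≤ b ^ n := pow_le_pow_left₀ (Real.rpow_nonneg hx _) h n
  rwa [← Real.rpow_natCast, ← Real.rpow_mul hx, ha, Real.rpow_one] at h1

/-- the part of the cone near `Γ` -/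
def Wset (F : Flip) : Set (Fin 6 → ℂ) :=
  {p | ∃ q, q ∈ Dom F.ρ ∧ nA q * nZ q < F.ρ / 2 ∧ (q 3 ≠ 0 ∨ q 4 ≠ 0) ∧ F.Φ q = p}

theorem Wset_open (F : Flip) {p : Fin 6 → ℂ} (hp : p ∈ Wset F) :
    p ∈ interior {p' | G p' = 0 → p' ∈ Wset F} := by
  obtain ⟨q, hq, hq2, hz, rfl⟩ := hp
  obtain ⟨Ψ, h1, h2, -, h4⟩ := F.inv q hq hz
  rw [mem_interior_iff_mem_nhds]
  have hρ := F.ρ_pos
  have ho : IsOpen {q' : Fin 5 → ℂ | nA q' * nZ q' < F.ρ / 2} :=
    isOpen_lt (continuous_nA.mul continuous_nZ) continuous_const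
  have ho2 : IsOpen {q' : Fin 5 → ℂ | 0 < nZ q'} :=
    isOpen_lt continuous_const continuous_nZ
  have e1 : ∀ᶠ q' in 𝓝 (Ψ (F.Φ q)), nA q' * nZ q' < F.ρ / 2 := by
    rw [h2]
    exact ho.mem_nhds hq2
  have e2 : ∀ᶠ q' in 𝓝 (Ψ (F.Φ q)), 0 < nZ q' := by
    rw [h2]
    exact ho2.mem_nhds (nZ_pos.2 hz)
  have c1 := h1.continuousAt
  filter_upwards [h4, c1.eventually e1, c1.eventually e2] with p' a1 a2 a3 hG
  refine ⟨Ψ p', ?_, a2, nZ_pos.1 a3, a1 hG⟩
  show nA (Ψ p') * nZ (Ψ p') < F.ρ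
  linarith

/-- the compact part of the cone -/
def K1 (F : Flip) (r : ℝ) : Set (Fin 6 → ℂ) :=
  {p | G p = 0 ∧ nP p = 1 ∧ ‖p 5‖ ≤ r} \ interior {p' | G p' = 0 → p' ∈ Wset F}

/-- the compact part of the flip chart -/
def K2 (F : Flip) : Set (Fin 5 → ℂ) := {q | nA q = 1 ∧ nZ q ≤ F.ρ / 2}

theorem K1_compact (F : Flip) {r : ℝ} (hr : r < 1) : IsCompact (K1 F r) := by
  apply Metric.isCompact_of_isClosed_isBounded
  · refine IsClosed.sdiff ?_ isOpen_interior
    refine (isClosed_eq continuous_G continuous_const).inter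
      ((isClosed_eq continuous_nP continuous_const).inter ?_)
    exact isClosed_le ((continuous_apply (5 : Fin 6)).norm) continuous_const
  · refine (Metric.isBounded_closedBall (x := (0 : Fin 6 → ℂ)) (r := 1)).subset ?_
    rintro p ⟨⟨-, h1, h2⟩, -⟩
    rw [mem_closedBall_zero_iff, pi_norm_le_iff_of_nonneg zero_le_one]
    have h3 : nP p ≤ 1 := h1.le
    unfold nP at h3
    rw [max_le_iff, max_le_iff, max_le_iff, max_le_iff] at h3
    obtain ⟨b0, b1, b2, b3, b4⟩ := h3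
    have c1 := le_of_rpow_le (norm_nonneg _) 5 (by norm_num) (by norm_num) b1
    have c2 := le_of_rpow_le (norm_nonneg _) 6 (by norm_num) (by norm_num) b2
    have c3 := le_of_rpow_le (norm_nonneg _) 22 (by norm_num) (by norm_num) b3
    have c4 := le_of_rpow_le (norm_nonneg _) 33 (by norm_num) (by norm_num) b4
    rw [one_pow] at c1 c2 c3 c4
    intro i
    fin_cases i
    · exact b0
    · exact c1
    · exact c2
    · exact c3
    · exact c4
    · exact h2.trans hr.le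

theorem K2_compact (F : Flip) : IsCompact (K2 F) := by
  apply Metric.isCompact_of_isClosed_isBounded
  · exact (isClosed_eq continuous_nA continuous_const).inter
      (isClosed_le continuous_nZ continuous_const)
  · have hρ := F.ρ_pos
    refine (Metric.isBounded_closedBall (x := (0 : Fin 5 → ℂ))
      (r := 1 + F.ρ / 2 + (F.ρ / 2) ^ 6)).subset ?_
    rintro q ⟨h1, h2⟩
    rw [mem_closedBall_zero_iff, pi_norm_le_iff_of_nonneg (by positivity)]
    have h3 : nA q ≤ 1 := h1.le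
    unfold nA at h3
    rw [max_le_iff, max_le_iff] at h3
    unfold nZ at h2
    rw [max_le_iff] at h2
    obtain ⟨b0, b1, b2⟩ := h3
    obtain ⟨b3, b4⟩ := h2
    have c1 := le_of_rpow_le (norm_nonneg _) 2 (by norm_num) (by norm_num) b1
    have c2 := le_of_rpow_le (norm_nonneg _) 3 (by norm_num) (by norm_num) b2
    have c4 := le_of_rpow_le (norm_nonneg _) 6 (by norm_num) (by norm_num) b4
    rw [one_pow] at c1 c2
    have d1 : 0 < F.ρ / 2 := by positivity
    have d2 : 0 < (F.ρ / 2) ^ 6 := by positivity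
    intro i
    fin_cases i
    · show ‖q 0‖ ≤ _
      linarith
    · show ‖q 1‖ ≤ _
      linarith
    · show ‖q 2‖ ≤ _
      linarith
    · show ‖q 3‖ ≤ _
      linarith
    · show ‖q 4‖ ≤ _
      linarith

theorem K1_sub (F : Flip) (hr : F.RelFacts) {r : ℝ} (hr1 : r < 1) {p : Fin 6 → ℂ}
    (hp : p ∈ K1 F r) : p ∈ Cone ∧ p ∉ Gam := by
  obtain ⟨⟨h1, h2, h3⟩, h4⟩ := hp
  have hnz : ∃ i : Fin 6, i ≠ 5 ∧ p i ≠ 0 := nP_pos.1 (by rw [h2]; exact one_pos)
  have hC : p ∈ Cone := ⟨h1, hnz, h3.trans_lt hr1⟩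
  refine ⟨hC, fun hG => h4 ?_⟩
  obtain ⟨a1, a2⟩ := hr.gam p hC hG
  apply Wset_open
  refine ⟨_, a1, ?_, ?_, a2⟩
  · have e1 : nA (![0, 0, 0, p 0, p 2] : Fin 5 → ℂ) = 0 := by
      by_contra hne
      have := nA_pos.1 (lt_of_le_of_ne (nA_nonneg _) (Ne.symm hne))
      simp at this
    rw [e1, zero_mul]
    exact half_pos F.ρ_pos
  · by_contra hcon
    push Not at hcon
    have b0 : p 0 = 0 := hcon.1
    have b2 : p 2 = 0 := hcon.2
    obtain ⟨-, g1, g3, g4⟩ := hG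
    obtain ⟨i, hi, hpi⟩ := hnz
    apply hpi
    fin_cases i
    · exact b0
    · exact g1
    · exact b2
    · show p 3 = 0
      rw [g3, b0]
      ring
    · show p 4 = 0
      rw [g4, b0]
      ring
    · exact absurd rfl hi

theorem K2_sub (F : Flip) {q : Fin 5 → ℂ} (hq : q ∈ K2 F) :
    q ∈ Dom F.ρ ∧ (q 0 ≠ 0 ∨ q 1 ≠ 0 ∨ q 2 ≠ 0) := by
  obtain ⟨h1, h2⟩ := hq
  have hρ := F.ρ_pos
  refine ⟨?_, nA_pos.1 (by rw [h1]; exact one_pos)⟩
  show nA q * nZ q < F.ρ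
  rw [h1]
  linarith

theorem continuous_g (F : Flip) : Continuous F.g := by
  unfold Flip.g
  refine continuous_quot_lift _ ?_
  refine Continuous.sumElim ?_ ?_
  · exact (continuous_apply 5).comp continuous_subtype_val
  · have h1 : ContinuousOn (fun q => F.Φ q 5) (Dom F.ρ) := (F.an 5).continuousOn
    exact h1.comp_continuous continuous_subtype_val fun q => q.2.1

/-- a point of the flip chart is in the image of the compact set -/
theorem pi2_mem (F : Flip) (hr : F.RelFacts) (q : F.M2) (h : nA q.1 * nZ q.1 ≤ F.ρ / 2) :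
    F.pi2 q ∈ F.pi2 '' {q' | q'.1 ∈ K2 F} := by
  have hA : 0 < nA q.1 := nA_pos.2 q.2.2
  set l : ℂ := (nA q.1 : ℂ) with hl
  have hl0 : l ≠ 0 := by
    rw [hl]
    exact_mod_cast hA.ne'
  have hln : ‖l‖ = nA q.1 := by
    rw [hl, Complex.norm_real, Real.norm_of_nonneg hA.le]
  have k1 : act' l q.1 ∈ K2 F := by
    constructor
    · rw [nA_act' hl0, hln, inv_mul_cancel₀ hA.ne']
    · rw [nZ_act', hln]
      exact h
  refine ⟨⟨act' l q.1, K2_sub F k1⟩, k1, ?_⟩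
  rw [hr.eq22]
  refine ⟨l⁻¹, inv_ne_zero hl0, ?_⟩
  show q.1 = act' l⁻¹ (act' l q.1)
  rw [act'_inv_act' hl0]

end ProperX

open ProperX

theorem Flip.proper (F : Flip) (hr : F.RelFacts) (ht : F.TopFacts) :
    ∀ r < 1, IsCompact {x | ‖F.g x‖ ≤ r} := by
  intro r hr1
  have hc1 : IsCompact (F.pi1 '' {p : Flip.M1 | p.1 ∈ K1 F r}) := by
    refine IsCompact.image ?_ ht.cont1
    rw [Subtype.isCompact_iff]
    convert K1_compact F hr1 using 1
    ext p
    constructor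
    · rintro ⟨p', hp', rfl⟩
      exact hp'
    · intro hp
      exact ⟨⟨p, K1_sub F hr hr1 hp⟩, hp, rfl⟩
  have hc2 : IsCompact (F.pi2 '' {q : F.M2 | q.1 ∈ K2 F}) := by
    refine IsCompact.image ?_ ht.cont2
    rw [Subtype.isCompact_iff]
    convert K2_compact F using 1
    ext q
    constructor
    · rintro ⟨q', hq', rfl⟩
      exact hq'
    · intro hq
      exact ⟨⟨q, K2_sub F hq⟩, hq, rfl⟩
  have hcl : IsClosed {x | ‖F.g x‖ ≤ r} :=
    isClosed_le (continuous_g F).norm continuous_const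
  refine (hc1.union hc2).of_isClosed_subset hcl ?_
  intro x hx
  rcases hr.surj x with ⟨p, rfl⟩ | ⟨q, rfl, h3, h4⟩
  · have hpr : ‖p.1 5‖ ≤ r := hx
    have hn : 0 < nP p.1 := nP_pos.2 p.2.1.2.1
    set l : ℂ := (((nP p.1)⁻¹ : ℝ) : ℂ) with hl
    have hl0 : l ≠ 0 := by
      rw [hl]
      exact_mod_cast (inv_pos.2 hn).ne'
    have hln : ‖l‖ = (nP p.1)⁻¹ := by
      rw [hl, Complex.norm_real, Real.norm_of_nonneg (inv_pos.2 hn).le]
    have m1 : act l p.1 ∈ Cone := (act_mem_Cone hl0).2 p.2.1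
    have m2 : act l p.1 ∉ Gam := fun h => p.2.2 ((act_mem_Gam hl0).1 h)
    have e1 : F.pi1 p = F.pi1 ⟨act l p.1, m1, m2⟩ := by
      rw [hr.eq11]
      exact ⟨l, hl0, rfl⟩
    have hn1 : nP (act l p.1) = 1 := by
      rw [nP_act, hln, inv_mul_cancel₀ hn.ne']
    rw [e1]
    by_cases hW : act l p.1 ∈ interior {p' | G p' = 0 → p' ∈ Wset F}
    · right
      obtain ⟨q, hq, hq2, hz, hqp⟩ := interior_subset hW m1.1
      have hA : q 0 ≠ 0 ∨ q 1 ≠ 0 ∨ q 2 ≠ 0 := by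
        by_contra hcon
        push Not at hcon
        apply m2
        rw [← hqp]
        exact (F.Φgam q hq hz).2 hcon
      have e2 : F.pi1 ⟨act l p.1, m1, m2⟩ = F.pi2 ⟨q, hq, hA⟩ := by
        rw [hr.eq12]
        refine ⟨hz, 1, one_ne_zero, ?_⟩
        show act l p.1 = act 1 (F.Φ q)
        rw [act_one, hqp]
      rw [e2]
      exact pi2_mem F hr ⟨q, hq, hA⟩ hq2.le
    · left
      refine ⟨⟨act l p.1, m1, m2⟩, ⟨⟨m1.1, hn1, ?_⟩, hW⟩, rfl⟩
      show ‖act l p.1 5‖ ≤ r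
      rw [act_five']
      exact hpr
  · right
    apply pi2_mem F hr
    have hz : nZ q.1 = 0 := by
      by_contra hne
      have := nZ_pos.1 (lt_of_le_of_ne (nZ_nonneg _) (Ne.symm hne))
      rcases this with h | h
      · exact h h3
      · exact h h4
    rw [hz, mul_zero]
    exact (half_pos F.ρ_pos).le

end Pool.Agent.KO
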