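import Pool.Agent.KO.Xa.Defs

/-!
# `X` is Hausdorff and second countable (block Xa)
-/

set_option autoImplicit false

namespace Pool.Agent.KO

open Set Filter Topology

/-- A sequence of scalars whose absolute values tend to a positive number has a subsequence with a
nonzero limit. -/
theorem exists_lim_scalar {l : ℕ → ℂ} {r : ℝ} (hr : 0 < r)
    (h : Tendsto (fun n => ‖l n‖) atTop (𝓝 r)) :
    ∃ m : ℂ, m ≠ 0 ∧ ∃ φ : ℕ → ℕ, StrictMono φ ∧ Tendsto (fun n => l (φ n)) atTop (𝓝 m) := by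
  obtain ⟨B, hB⟩ := h.bddAbove_range
  have hb : Bornology.IsBounded (Metric.closedBall (0 : ℂ) B) := Metric.isBounded_closedBall
  have hx : ∀ n, l n ∈ Metric.closedBall (0 : ℂ) B := fun n => by
    rw [mem_closedBall_zero_iff]
    exact hB (mem_range_self n)
  obtain ⟨m, -, φ, hφ, hm⟩ := tendsto_subseq_of_bounded hb hx
  refine ⟨m, ?_, φ, hφ, hm⟩
  have h1 : Tendsto (fun n => ‖l (φ n)‖) atTop (𝓝 ‖m‖) := hm.norm
  have h2 : Tendsto (fun n => ‖l (φ n)‖) atTop (𝓝 r) := h.comp hφ.tendsto_atTop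
  have h3 := tendsto_nhds_unique h1 h2
  rw [← norm_pos_iff, h3]
  exact hr

theorem tendsto_act {l : ℕ → ℂ} {m : ℂ} {p : ℕ → Fin 6 → ℂ} {a : Fin 6 → ℂ}
    (hl : Tendsto l atTop (𝓝 m)) (hp : Tendsto p atTop (𝓝 a)) :
    Tendsto (fun n => act (l n) (p n)) atTop (𝓝 (act m a)) := by
  refine tendsto_pi_nhds.2 fun i => ?_
  simp only [act]
  exact (hl.pow (wgt i)).mul (((continuous_apply i).tendsto a).comp hp)

theorem tendsto_act' {l : ℕ → ℂ} {m : ℂ} (hm : m ≠ 0) {q : ℕ → Fin 5 → ℂ} {b : Fin 5 → ℂ}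
    (hl : Tendsto l atTop (𝓝 m)) (hq : Tendsto q atTop (𝓝 b)) :
    Tendsto (fun n => act' (l n) (q n)) atTop (𝓝 (act' m b)) := by
  refine tendsto_pi_nhds.2 fun i => ?_
  simp only [act']
  exact ((tendsto_id.zpow₀ (wgt' i) (Or.inl hm)).comp hl).mul
    (((continuous_apply i).tendsto b).comp hq)

namespace Flip

variable (F : Flip)

theorem M1_pos (p : M1) : 0 < nP p.1 := nP_pos.2 p.2.1.2.1

theorem M2_pos (q : F.M2) : 0 < nA q.1 := nA_pos.2 q.2.2

theorem closed11 (hr : F.RelFacts) : IsClosed {x : M1 × M1 | F.pi1 x.1 = F.pi1 x.2} := by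
  refine IsSeqClosed.isClosed fun x a hx ha => ?_
  have h1 : Tendsto (fun n => (x n).1.1) atTop (𝓝 a.1.1) :=
    ((continuous_subtype_val.comp continuous_fst).tendsto a).comp ha
  have h2 : Tendsto (fun n => (x n).2.1) atTop (𝓝 a.2.1) :=
    ((continuous_subtype_val.comp continuous_snd).tendsto a).comp ha
  have h3 : ∀ n, ∃ l : ℂ, l ≠ 0 ∧ (x n).2.1 = act l (x n).1.1 := fun n => (hr.eq11 _ _).1 (hx n)
  choose l hl hx' using h3
  have h4 : ∀ n, ‖l n‖ = nP (x n).2.1 / nP (x n).1.1 := fun n => by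
    rw [hx' n, nP_act, mul_div_assoc, div_self (M1_pos (x n).1).ne', mul_one]
  have h5 : Tendsto (fun n => ‖l n‖) atTop (𝓝 (nP a.2.1 / nP a.1.1)) := by
    simp only [h4]
    exact ((continuous_nP.tendsto _).comp h2).div ((continuous_nP.tendsto _).comp h1)
      (M1_pos a.1).ne'
  obtain ⟨m, hm, φ, hφ, hlm⟩ := exists_lim_scalar (div_pos (M1_pos a.2) (M1_pos a.1)) h5
  refine (hr.eq11 _ _).2 ⟨m, hm, ?_⟩
  have h6 := tendsto_act hlm (h1.comp hφ.tendsto_atTop)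
  have h7 := h2.comp hφ.tendsto_atTop
  refine tendsto_nhds_unique h7 (h6.congr fun n => ?_)
  exact (hx' (φ n)).symm

theorem closed22 (hr : F.RelFacts) : IsClosed {x : F.M2 × F.M2 | F.pi2 x.1 = F.pi2 x.2} := by
  refine IsSeqClosed.isClosed fun x a hx ha => ?_
  have h1 : Tendsto (fun n => (x n).1.1) atTop (𝓝 a.1.1) :=
    ((continuous_subtype_val.comp continuous_fst).tendsto a).comp ha
  have h2 : Tendsto (fun n => (x n).2.1) atTop (𝓝 a.2.1) :=
    ((continuous_subtype_val.comp continuous_snd).tendsto a).comp ha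
  have h3 : ∀ n, ∃ l : ℂ, l ≠ 0 ∧ (x n).2.1 = act' l (x n).1.1 := fun n => (hr.eq22 _ _).1 (hx n)
  choose l hl hx' using h3
  have h4 : ∀ n, ‖l n‖ = nA (x n).1.1 / nA (x n).2.1 := fun n => by
    have hn := F.M2_pos (x n).1
    have hl0 : ‖l n‖ ≠ 0 := norm_ne_zero_iff.2 (hl n)
    rw [hx' n, nA_act' (hl n)]
    field_simp
  have h5 : Tendsto (fun n => ‖l n‖) atTop (𝓝 (nA a.1.1 / nA a.2.1)) := by
    simp only [h4]
    exact ((continuous_nA.tendsto _).comp h1).div ((continuous_nA.tendsto _).comp h2)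
      (F.M2_pos a.2).ne'
  obtain ⟨m, hm, φ, hφ, hlm⟩ := exists_lim_scalar (div_pos (F.M2_pos a.1) (F.M2_pos a.2)) h5
  refine (hr.eq22 _ _).2 ⟨m, hm, ?_⟩
  have h6 := tendsto_act' hm hlm (h1.comp hφ.tendsto_atTop)
  have h7 := h2.comp hφ.tendsto_atTop
  refine tendsto_nhds_unique h7 (h6.congr fun n => ?_)
  exact (hx' (φ n)).symm

theorem contAt_Φ {q : Fin 5 → ℂ} (hq : q ∈ Dom F.ρ) : ContinuousAt F.Φ q :=
  continuousAt_pi.2 fun i => (F.an i q hq).continuousAt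

theorem closed12 (hr : F.RelFacts) : IsClosed {x : M1 × F.M2 | F.pi1 x.1 = F.pi2 x.2} := by
  refine IsSeqClosed.isClosed fun x a hx ha => ?_
  have h1 : Tendsto (fun n => (x n).1.1) atTop (𝓝 a.1.1) :=
    ((continuous_subtype_val.comp continuous_fst).tendsto a).comp ha
  have h2 : Tendsto (fun n => (x n).2.1) atTop (𝓝 a.2.1) :=
    ((continuous_subtype_val.comp continuous_snd).tendsto a).comp ha
  have h3 : ∀ n, ((x n).2.1 3 ≠ 0 ∨ (x n).2.1 4 ≠ 0) ∧
      ∃ l : ℂ, l ≠ 0 ∧ (x n).1.1 = act l (F.Φ (x n).2.1) := fun n => (hr.eq12 _ _).1 (hx n)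
  have hz : ∀ n, (x n).2.1 3 ≠ 0 ∨ (x n).2.1 4 ≠ 0 := fun n => (h3 n).1
  choose l hl hx' using fun n => (h3 n).2
  have hΦ : Tendsto (fun n => F.Φ (x n).2.1) atTop (𝓝 (F.Φ a.2.1)) :=
    Tendsto.comp (F.contAt_Φ a.2.2.1) h2
  have hpos : ∀ n, 0 < nP (F.Φ (x n).2.1) := fun n => nP_pos.2 (hr.mem1 _ (hz n)).1.2.1
  have h4 : ∀ n, ‖l n‖ = nP (x n).1.1 / nP (F.Φ (x n).2.1) := fun n => by
    rw [hx' n, nP_act, mul_div_assoc, div_self (hpos n).ne', mul_one]
  by_cases hz0 : a.2.1 3 ≠ 0 ∨ a.2.1 4 ≠ 0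
  · have hp0 : 0 < nP (F.Φ a.2.1) := nP_pos.2 (hr.mem1 _ hz0).1.2.1
    have h5 : Tendsto (fun n => ‖l n‖) atTop (𝓝 (nP a.1.1 / nP (F.Φ a.2.1))) := by
      simp only [h4]
      exact ((continuous_nP.tendsto _).comp h1).div ((continuous_nP.tendsto _).comp hΦ) hp0.ne'
    obtain ⟨m, hm, φ, hφ, hlm⟩ := exists_lim_scalar (div_pos (M1_pos a.1) hp0) h5
    refine (hr.eq12 _ _).2 ⟨hz0, m, hm, ?_⟩
    have h6 := tendsto_act hlm (hΦ.comp hφ.tendsto_atTop)
    have h7 := h1.comp hφ.tendsto_atTop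
    refine tendsto_nhds_unique h7 (h6.congr fun n => ?_)
    exact (hx' (φ n)).symm
  · exfalso
    push Not at hz0
    have hzero : ∀ i, F.Φ a.2.1 i = 0 := hr.zero _ a.2.2.1 hz0.1 hz0.2
    have hΦ0 : nP (F.Φ a.2.1) = 0 := by
      refine le_antisymm (not_lt.1 fun h => ?_) (nP_nonneg _)
      obtain ⟨i, -, hi⟩ := nP_pos.1 h
      exact hi (hzero i)
    have h5 : Tendsto (fun n => ‖(l n)⁻¹‖) atTop (𝓝 0) := by
      have : ∀ n, ‖(l n)⁻¹‖ = nP (F.Φ (x n).2.1) / nP (x n).1.1 := fun n => by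
        rw [norm_inv, h4 n, inv_div]
      simp only [this]
      have h6 := ((continuous_nP.tendsto _).comp hΦ).div ((continuous_nP.tendsto _).comp h1)
        (M1_pos a.1).ne'
      rw [hΦ0, zero_div] at h6
      exact h6
    have h6 : Tendsto (fun n => (l n)⁻¹) atTop (𝓝 0) := tendsto_zero_iff_norm_tendsto_zero.2 h5
    have hc : ∀ i, Tendsto (fun n => (x n).2.1 i) atTop (𝓝 (a.2.1 i)) := fun i =>
      ((continuous_apply i).tendsto _).comp h2
    have hc1 : ∀ i, Tendsto (fun n => (x n).1.1 i) atTop (𝓝 (a.1.1 i)) := fun i =>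
      ((continuous_apply i).tendsto _).comp h1
    have hD : ∀ n, act' (l n) (x n).2.1 ∈ Dom F.ρ := fun n => act'_Dom (hl n) (x n).2.2.1
    have hΦ' : ∀ n, F.Φ (act' (l n) (x n).2.1) = (x n).1.1 := fun n => by
      rw [F.Φact _ (hl n) _ (x n).2.2.1, ← hx' n]
    have hq : Tendsto (fun n => act' (l n) (x n).2.1) atTop
        (𝓝 (![0, 0, 0, a.1.1 0, a.1.1 2] : Fin 5 → ℂ)) := by
      refine tendsto_pi_nhds.2 fun i => ?_
      fin_cases i
      · show Tendsto (fun n => act' (l n) (x n).2.1 0) atTop (𝓝 0)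
        simp only [act'_zero']
        simpa using h6.mul (hc 0)
      · show Tendsto (fun n => act' (l n) (x n).2.1 1) atTop (𝓝 0)
        simp only [act'_one', ← inv_pow]
        simpa using (h6.pow 2).mul (hc 1)
      · show Tendsto (fun n => act' (l n) (x n).2.1 2) atTop (𝓝 0)
        simp only [act'_two', ← inv_pow]
        simpa using (h6.pow 3).mul (hc 2)
      · show Tendsto (fun n => act' (l n) (x n).2.1 3) atTop (𝓝 (a.1.1 0))
        refine (hc1 0).congr fun n => ?_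
        rw [← hΦ' n, F.Φz]
      · show Tendsto (fun n => act' (l n) (x n).2.1 4) atTop (𝓝 (a.1.1 2))
        refine (hc1 2).congr fun n => ?_
        rw [← hΦ' n, F.Φw]
    have hq0 : (![0, 0, 0, a.1.1 0, a.1.1 2] : Fin 5 → ℂ) ∈ Dom F.ρ := by
      show nA _ * nZ _ < F.ρ
      have : nA (![0, 0, 0, a.1.1 0, a.1.1 2] : Fin 5 → ℂ) = 0 := by
        refine le_antisymm (not_lt.1 fun h => ?_) (nA_nonneg _)
        have := nA_pos.1 h
        simp at this
      rw [this, zero_mul]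
      exact F.ρ_pos
    have hlim : F.Φ ![0, 0, 0, a.1.1 0, a.1.1 2] = a.1.1 := by
      have h7 := Tendsto.comp (F.contAt_Φ hq0) hq
      refine tendsto_nhds_unique (h7.congr fun n => ?_) h1
      exact hΦ' n
    by_cases hw : a.1.1 0 ≠ 0 ∨ a.1.1 2 ≠ 0
    · refine a.1.2.2 ?_
      have := (F.Φgam _ hq0 hw).2 ⟨rfl, rfl, rfl⟩
      rwa [hlim] at this
    · push Not at hw
      obtain ⟨i, -, hi⟩ := a.1.2.1.2.1
      refine hi ?_
      rw [← hlim]
      exact hr.zero _ hq0 hw.1 hw.2 i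

theorem sep_aux {X Y Z : Type} [TopologicalSpace X] [TopologicalSpace Y] [TopologicalSpace Z]
    {f : X → Z} {g : Y → Z} (hf : IsOpenMap f) (hg : IsOpenMap g)
    (hc : IsClosed {p : X × Y | f p.1 = g p.2}) (a : X) (b : Y) (h : f a ≠ g b) :
    ∃ U V : Set Z, IsOpen U ∧ IsOpen V ∧ f a ∈ U ∧ g b ∈ V ∧ Disjoint U V := by
  have ho : IsOpen {p : X × Y | f p.1 = g p.2}ᶜ := hc.isOpen_compl
  obtain ⟨U, V, hU, hV, ha, hb, hUV⟩ := isOpen_prod_iff.1 ho a b h
  refine ⟨f '' U, g '' V, hf U hU, hg V hV, mem_image_of_mem f ha, mem_image_of_mem g hb, ?_⟩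
  rw [Set.disjoint_left]
  rintro _ ⟨x, hx, rfl⟩ ⟨y, hy, hxy⟩
  exact hUV (mk_mem_prod hx hy) hxy.symm

theorem t2 (hr : F.RelFacts) (ht : F.TopFacts) : T2Space F.Sp := by
  have c11 := F.closed11 hr
  have c22 := F.closed22 hr
  have c12 := F.closed12 hr
  have hrep : ∀ x : F.Sp, (∃ p : M1, F.pi1 p = x) ∨ ∃ q : F.M2, F.pi2 q = x := fun x => by
    rcases hr.surj x with h | ⟨q, h, -⟩
    · exact Or.inl h
    · exact Or.inr ⟨q, h⟩
  refine ⟨fun x y hxy => ?_⟩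
  rcases hrep x with ⟨p, rfl⟩ | ⟨q, rfl⟩ <;> rcases hrep y with ⟨p', rfl⟩ | ⟨q', rfl⟩
  · exact sep_aux ht.open1 ht.open1 c11 p p' hxy
  · exact sep_aux ht.open1 ht.open2 c12 p q' hxy
  · obtain ⟨U, V, hU, hV, h1, h2, h3⟩ := sep_aux ht.open1 ht.open2 c12 p' q hxy.symm
    exact ⟨V, U, hV, hU, h2, h1, h3.symm⟩
  · exact sep_aux ht.open2 ht.open2 c22 q q' hxy

theorem second (hr : F.RelFacts) (ht : F.TopFacts) : SecondCountableTopology F.Sp := by
  have hcont : Continuous (Sum.elim F.pi1 F.pi2) := ht.cont1.sumElim ht.cont2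
  have hopen : IsOpenMap (Sum.elim F.pi1 F.pi2) := by
    rw [isOpenMap_sum]
    exact ⟨ht.open1, ht.open2⟩
  have hsurj : Function.Surjective (Sum.elim F.pi1 F.pi2) := fun x => by
    rcases hr.surj x with ⟨p, h⟩ | ⟨q, h, -⟩
    · exact ⟨Sum.inl p, h⟩
    · exact ⟨Sum.inr q, h⟩
  exact (hopen.isQuotientMap hcont hsurj).secondCountableTopology hopen

end Flip

end Pool.Agent.KO
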