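import Pool.Agent.KO.Xa.Defs

/-!
# Block Xa: the projections `π₁`, `π₂` are continuous and open
-/

set_option autoImplicit false

namespace Pool.Agent.KO

open Set Filter Topology

theorem Flip.isOpen_iff' (F : Flip) (U : Set F.Sp) :
    IsOpen U ↔ IsOpen (F.pi1 ⁻¹' U) ∧ IsOpen (F.pi2 ⁻¹' U) := by
  have h : IsOpen U ↔ IsOpen (Quot.mk F.rel ⁻¹' U) := isOpen_coinduced
  rw [h, isOpen_sum_iff]
  rfl

theorem Flip.cont1' (F : Flip) : Continuous F.pi1 :=
  (continuous_quot_mk (r := F.rel)).comp continuous_inl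

theorem Flip.cont2' (F : Flip) : Continuous F.pi2 :=
  (continuous_quot_mk (r := F.rel)).comp continuous_inr

/-- The action on `M₁`. -/
noncomputable def actM1 (l : ℂ) (hl : l ≠ 0) (p : Flip.M1) : Flip.M1 :=
  ⟨act l p.1, (act_mem_Cone hl).2 p.2.1, fun h => p.2.2 ((act_mem_Gam hl).1 h)⟩

theorem continuous_actM1 (l : ℂ) (hl : l ≠ 0) : Continuous (actM1 l hl) :=
  ((continuous_act_right l).comp continuous_subtype_val).subtype_mk _

/-- The action on `M₂`. -/
noncomputable def Flip.actM2 (F : Flip) (l : ℂ) (hl : l ≠ 0) (q : F.M2) : F.M2 :=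
  ⟨act' l q.1, Flip.act'_Dom hl q.2.1, by
    have h := q.2.2
    rwa [act'_apply_ne hl, act'_apply_ne hl, act'_apply_ne hl]⟩

theorem Flip.continuous_actM2 (F : Flip) (l : ℂ) (hl : l ≠ 0) : Continuous (F.actM2 l hl) :=
  ((continuous_act'_right l).comp continuous_subtype_val).subtype_mk _

theorem Flip.topFacts (F : Flip) (hr : F.RelFacts) : F.TopFacts where
  cont1 := F.cont1'
  cont2 := F.cont2'
  open1 := by
    intro U hU
    rw [F.isOpen_iff']
    refine ⟨isOpen_iff_mem_nhds.2 ?_, isOpen_iff_mem_nhds.2 ?_⟩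
    · rintro p ⟨p', hp', he⟩
      obtain ⟨l, hl, hp⟩ := (hr.eq11 p' p).1 he
      have h1 : actM1 l⁻¹ (inv_ne_zero hl) p = p' := by
        apply Subtype.ext
        show act l⁻¹ p.1 = p'.1
        rw [hp, act_inv_act hl]
      have h2 : ∀ᶠ p'' in 𝓝 p, actM1 l⁻¹ (inv_ne_zero hl) p'' ∈ U := by
        refine (continuous_actM1 l⁻¹ (inv_ne_zero hl)).continuousAt ?_
        rw [h1]
        exact hU.mem_nhds hp'
      filter_upwards [h2] with p'' h3
      refine ⟨_, h3, (hr.eq11 _ _).2 ⟨l, hl, ?_⟩⟩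
      show p''.1 = act l (act l⁻¹ p''.1)
      rw [act_act_inv hl]
    · rintro q ⟨p', hp', he⟩
      obtain ⟨hz, l, hl, hp⟩ := (hr.eq12 p' q).1 he
      obtain ⟨U', hU', rfl⟩ := isOpen_induced_iff.1 hU
      have h1 : ContinuousAt (fun q'' : F.M2 => act l (F.Φ q''.1)) q := by
        refine (continuous_act_right l).continuousAt.comp ?_
        have h2 : ContinuousAt F.Φ q.1 :=
          continuousAt_pi.2 fun i => (F.an i q.1 q.2.1).continuousAt
        exact h2.comp continuousAt_subtype_val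
      have h2 : ∀ᶠ q'' in 𝓝 q, act l (F.Φ q''.1) ∈ U' := by
        refine h1 (hU'.mem_nhds ?_)
        show act l (F.Φ q.1) ∈ U'
        rw [← hp]
        exact hp'
      have h3 : ∀ᶠ q'' in 𝓝 q, 0 < nZ q''.1 :=
        (isOpen_lt continuous_const (continuous_nZ.comp continuous_subtype_val)).mem_nhds
          (nZ_pos.2 hz)
      filter_upwards [h2, h3] with q'' h4 h5
      have h6 := nZ_pos.1 h5
      have h7 := hr.mem1 q'' h6
      refine ⟨actM1 l hl ⟨F.Φ q''.1, h7⟩, h4, (hr.eq12 _ _).2 ⟨h6, l, hl, rfl⟩⟩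
  open2 := by
    intro V hV
    rw [F.isOpen_iff']
    refine ⟨isOpen_iff_mem_nhds.2 ?_, isOpen_iff_mem_nhds.2 ?_⟩
    · rintro p ⟨q, hq, he⟩
      obtain ⟨hz, l, hl, hp⟩ := (hr.eq12 p q).1 he.symm
      obtain ⟨V', hV', rfl⟩ := isOpen_induced_iff.1 hV
      obtain ⟨Ψ, hΨ, hΨq, -, hΨG⟩ := F.inv q.1 q.2.1 hz
      have h0 : act l⁻¹ p.1 = F.Φ q.1 := by rw [hp, act_inv_act hl]
      have h1 : Tendsto (fun p'' : Flip.M1 => act l⁻¹ p''.1) (𝓝 p) (𝓝 (F.Φ q.1)) := by
        have h2 : ContinuousAt (fun p'' : Flip.M1 => act l⁻¹ p''.1) p :=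
          ((continuous_act_right l⁻¹).comp continuous_subtype_val).continuousAt
        have h3 := h2.tendsto
        rwa [h0] at h3
      have h2 : Tendsto Ψ (𝓝 (F.Φ q.1)) (𝓝 q.1) := by
        have h3 := hΨ.continuousAt.tendsto
        rwa [hΨq] at h3
      have hopen : {q' : Fin 5 → ℂ | q' ∈ V' ∧ q' ∈ Dom F.ρ ∧ 0 < nA q' ∧ 0 < nZ q'} ∈
          𝓝 q.1 := by
        refine Filter.inter_mem (hV'.mem_nhds hq) (Filter.inter_mem
          ((isOpen_Dom F.ρ).mem_nhds q.2.1) (Filter.inter_mem ?_ ?_))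
        · exact (isOpen_lt continuous_const continuous_nA).mem_nhds (nA_pos.2 q.2.2)
        · exact (isOpen_lt continuous_const continuous_nZ).mem_nhds (nZ_pos.2 hz)
      have h4 := h1.eventually hΨG
      have h5 := (h2.comp h1).eventually hopen
      filter_upwards [h4, h5] with p'' h6 h7
      obtain ⟨h8, h9, h10, h11⟩ := h7
      have h12 : F.Φ (Ψ (act l⁻¹ p''.1)) = act l⁻¹ p''.1 := h6 (by
        rw [G_act, p''.2.1.1, mul_zero])
      refine ⟨⟨Ψ (act l⁻¹ p''.1), h9, nA_pos.1 h10⟩, h8, ?_⟩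
      refine ((hr.eq12 _ _).2 ⟨nZ_pos.1 h11, l, hl, ?_⟩).symm
      show p''.1 = act l (F.Φ (Ψ (act l⁻¹ p''.1)))
      rw [h12, act_act_inv hl]
    · rintro q ⟨q', hq', he⟩
      obtain ⟨l, hl, hq⟩ := (hr.eq22 q' q).1 he
      have h1 : F.actM2 l⁻¹ (inv_ne_zero hl) q = q' := by
        apply Subtype.ext
        show act' l⁻¹ q.1 = q'.1
        rw [hq, act'_inv_act' hl]
      have h2 : ∀ᶠ q'' in 𝓝 q, F.actM2 l⁻¹ (inv_ne_zero hl) q'' ∈ V := by
        refine (F.continuous_actM2 l⁻¹ (inv_ne_zero hl)).continuousAt ?_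
        rw [h1]
        exact hV.mem_nhds hq'
      filter_upwards [h2] with q'' h3
      refine ⟨_, h3, (hr.eq22 _ _).2 ⟨l, hl, ?_⟩⟩
      show q''.1 = act' l (act' l⁻¹ q''.1)
      rw [act'_act'_inv hl]

end Pool.Agent.KO
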