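import Pool.Agent.KO.Xa.Rel
import Pool.Agent.KO.Xa.Top
import Pool.Agent.KO.Xa.OF
import Pool.Agent.KO.Xa.Shf
import Pool.Agent.KO.Xa.Desc
import Pool.Agent.KO.Xa.T2
import Pool.Agent.KO.Xa.Proper
import Pool.Agent.KO.Xa.Dense

/-!
# Block Xa: all facts
-/

set_option autoImplicit false

namespace Pool.Agent.KO

/-- The topology and the functions of `X`. -/
theorem Flip.xaFacts (F : Flip) : F.XaFacts := by
  have hr := F.relFacts
  have ht := F.topFacts hr
  have ho := F.oFacts hr
  have hs := F.shfFacts hr ht ho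
  have hd := F.descFacts hr ht ho
  have hn := F.denseFacts hr ht hd
  exact ⟨hr, ht, ho, hs, hd, hn, F.t2 hr ht, F.second hr ht, F.disc, F.hol, F.proper hr ht,
    F.flat hs hn⟩

end Pool.Agent.KO
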