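import Pool.Agent.KO.Xa.Defs

/-!
# The relation is an equivalence relation; the points of `X`
-/

set_option autoImplicit false

namespace Pool.Agent.KO

open Set Filter Topology

theorem zw_act' {l : ℂ} (hl : l ≠ 0) (q : Fin 5 → ℂ) :
    (act' l q 3 ≠ 0 ∨ act' l q 4 ≠ 0) ↔ (q 3 ≠ 0 ∨ q 4 ≠ 0) :=
  or_congr (act'_apply_ne hl q 3) (act'_apply_ne hl q 4)

theorem Flip.rel_refl (F : Flip) (a : Flip.M1 ⊕ F.M2) : F.rel a a := by
  rcases a with p | q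
  · exact ⟨1, one_ne_zero, (act_one _).symm⟩
  · exact ⟨1, one_ne_zero, (act'_one _).symm⟩

theorem Flip.rel_symm (F : Flip) {a b : Flip.M1 ⊕ F.M2} (h : F.rel a b) : F.rel b a := by
  rcases a with p | q <;> rcases b with p' | q'
  · obtain ⟨l, hl, h⟩ := h
    exact ⟨l⁻¹, inv_ne_zero hl, by rw [h, act_inv_act hl]⟩
  · exact h
  · exact h
  · obtain ⟨l, hl, h⟩ := h
    exact ⟨l⁻¹, inv_ne_zero hl, by rw [h, act'_inv_act' hl]⟩

theorem Flip.rel_trans (F : Flip) {a b c : Flip.M1 ⊕ F.M2} (h : F.rel a b) (h' : F.rel b c) :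
    F.rel a c := by
  rcases a with p | q <;> rcases b with p' | q' <;> rcases c with p'' | q''
  · obtain ⟨l, hl, h⟩ := h
    obtain ⟨m, hm, h'⟩ := h'
    exact ⟨m * l, mul_ne_zero hm hl, by rw [h', h, act_act]⟩
  · obtain ⟨l, hl, h⟩ := h
    obtain ⟨hq, m, hm, h'⟩ := h'
    refine ⟨hq, l⁻¹ * m, mul_ne_zero (inv_ne_zero hl) hm, ?_⟩
    rw [← act_act, ← h', h, act_inv_act hl]
  · obtain ⟨hq, l, hl, h⟩ := h
    obtain ⟨-, m, hm, h'⟩ := h'
    refine ⟨m * l⁻¹, mul_ne_zero hm (inv_ne_zero hl), ?_⟩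
    rw [← act_act, h, act_inv_act hl, h']
  · obtain ⟨hq, l, hl, h⟩ := h
    obtain ⟨m, hm, h'⟩ := h'
    refine ⟨?_, l * m⁻¹, mul_ne_zero hl (inv_ne_zero hm), ?_⟩
    · rw [h', zw_act' hm]
      exact hq
    · rw [← act_act, h', F.Φact m hm q'.1 q'.2.1, act_inv_act hm, h]
  · obtain ⟨hq, l, hl, h⟩ := h
    obtain ⟨m, hm, h'⟩ := h'
    exact ⟨hq, m * l, mul_ne_zero hm hl, by rw [h', h, act_act]⟩
  · obtain ⟨hq, l, hl, h⟩ := h
    obtain ⟨hq', m, hm, h'⟩ := h'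
    have hml : m⁻¹ * l ≠ 0 := mul_ne_zero (inv_ne_zero hm) hl
    refine ⟨m⁻¹ * l, hml, ?_⟩
    have h1 : F.Φ q''.1 = F.Φ (act' (m⁻¹ * l) q.1) := by
      rw [F.Φact _ hml q.1 q.2.1, ← act_act, ← h, h', act_inv_act hm]
    exact F.inj q''.1 q''.2.1 _ (Flip.act'_Dom hml q.2.1) hq' h1
  · obtain ⟨l, hl, h⟩ := h
    obtain ⟨hq', m, hm, h'⟩ := h'
    refine ⟨?_, m * l, mul_ne_zero hm hl, ?_⟩
    · rw [h, zw_act' hl] at hq'
      exact hq'
    · rw [h', h, F.Φact l hl q.1 q.2.1, act_act]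
  · obtain ⟨l, hl, h⟩ := h
    obtain ⟨m, hm, h'⟩ := h'
    exact ⟨m * l, mul_ne_zero hm hl, by rw [h', h, act'_act']⟩

theorem Flip.rel_equiv (F : Flip) : Equivalence F.rel :=
  ⟨F.rel_refl, F.rel_symm, F.rel_trans⟩

theorem Flip.mk_eq (F : Flip) (a b : Flip.M1 ⊕ F.M2) :
    Quot.mk F.rel a = Quot.mk F.rel b ↔ F.rel a b := by
  refine ⟨fun h => ?_, fun h => Quot.sound h⟩
  have h1 := Quot.eqvGen_exact h
  exact (F.rel_equiv.eqvGen_iff).1 h1

theorem Flip.Phi_mem (F : Flip) (q : F.M2) (hq : q.1 3 ≠ 0 ∨ q.1 4 ≠ 0) :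
    F.Φ q.1 ∈ Cone ∧ F.Φ q.1 ∉ Gam := by
  refine ⟨⟨F.Φeq q.1 q.2.1, ?_, F.small q.1 q.2.1⟩, fun h => ?_⟩
  · rcases hq with h | h
    · exact ⟨0, by decide, by rw [F.Φz]; exact h⟩
    · exact ⟨2, by decide, by rw [F.Φw]; exact h⟩
  · obtain ⟨h0, h1, h2⟩ := (F.Φgam q.1 q.2.1 hq).1 h
    rcases q.2.2 with h' | h' | h'
    · exact h' h0
    · exact h' h1
    · exact h' h2

theorem Flip.relFacts (F : Flip) : F.RelFacts where
  surj := by
    intro x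
    obtain ⟨a, rfl⟩ := Quot.exists_rep x
    rcases a with p | q
    · exact Or.inl ⟨p, rfl⟩
    · by_cases hq : q.1 3 ≠ 0 ∨ q.1 4 ≠ 0
      · refine Or.inl ⟨⟨F.Φ q.1, F.Phi_mem q hq⟩, ?_⟩
        exact Quot.sound ⟨hq, 1, one_ne_zero, (act_one _).symm⟩
      · push Not at hq
        exact Or.inr ⟨q, rfl, hq.1, hq.2⟩
  eq11 := fun p p' => F.mk_eq (Sum.inl p) (Sum.inl p')
  eq22 := fun q q' => F.mk_eq (Sum.inr q) (Sum.inr q')
  eq12 := fun p q => F.mk_eq (Sum.inl p) (Sum.inr q)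
  mem1 := F.Phi_mem
  zero := by
    intro q hq h3 h4 i
    obtain ⟨h1, h2, h5, h6⟩ := F.Φ0 q hq h3
    fin_cases i
    · show F.Φ q 0 = 0
      rw [F.Φz, h3]
    · show F.Φ q 1 = 0
      rw [h1, h4, mul_zero]
    · show F.Φ q 2 = 0
      rw [F.Φw, h4]
    · show F.Φ q 3 = 0
      rw [h2, h4]
      simp
    · show F.Φ q 4 = 0
      rw [h5, h4]
      simp
    · show F.Φ q 5 = 0
      rw [h6, h4]
      simp
  gam := by
    intro p hp hg
    set q : Fin 5 → ℂ := ![0, 0, 0, p 0, p 2] with hq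
    have q0 : q 0 = 0 := rfl
    have q1 : q 1 = 0 := rfl
    have q2 : q 2 = 0 := rfl
    have q3 : q 3 = p 0 := rfl
    have q4 : q 4 = p 2 := rfl
    have hD : q ∈ Dom F.ρ := by
      have h0 : nA q = 0 := by
        refine le_antisymm ?_ (nA_nonneg q)
        refine not_lt.1 fun h => ?_
        rcases nA_pos.1 h with h | h | h
        · exact h q0
        · exact h q1
        · exact h q2
      show nA q * nZ q < F.ρ
      rw [h0, zero_mul]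
      exact F.ρ_pos
    refine ⟨hD, ?_⟩
    obtain ⟨g5, g1, g3, g4⟩ := hg
    have hzw : q 3 ≠ 0 ∨ q 4 ≠ 0 := by
      by_contra hcon
      push Not at hcon
      rw [q3, q4] at hcon
      obtain ⟨i, hi, hpi⟩ := hp.2.1
      apply hpi
      fin_cases i
      · exact hcon.1
      · exact g1
      · exact hcon.2
      · show p 3 = 0
        rw [g3, hcon.1]
        simp
      · show p 4 = 0
        rw [g4, hcon.1]
        simp
      · exact absurd rfl hi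
    obtain ⟨e5, e1, e3, e4⟩ := (F.Φgam q hD hzw).2 ⟨q0, q1, q2⟩
    funext i
    fin_cases i
    · show F.Φ q 0 = p 0
      rw [F.Φz, q3]
    · show F.Φ q 1 = p 1
      rw [e1, g1]
    · show F.Φ q 2 = p 2
      rw [F.Φw, q4]
    · show F.Φ q 3 = p 3
      rw [e3, g3, F.Φz, F.Φw, q3, q4]
    · show F.Φ q 4 = p 4
      rw [e4, g4, F.Φz, q3]
    · show F.Φ q 5 = p 5
      rw [e5, g5]

end Pool.Agent.KO
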